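import Mathlib

/-! Finite expectations over lists of independent letters. -/

set_option autoImplicit false

namespace Pool.Agent.Y334.NA

/-- the expectation over the lists of length `n` of independent letters of `S` -/
noncomputable def EX {α : Type} (S : Finset α) (w : α → ℝ) : ℕ → (List α → ℝ) → ℝ
  | 0, f => f []
  | n + 1, f => ∑ b ∈ S, w b * EX S w n (fun l => f (b :: l))

variable {α : Type} {S : Finset α} {w : α → ℝ}

theorem EX_zero (f : List α → ℝ) : EX S w 0 f = f [] := rfl

theorem EX_succ (n : ℕ) (f : List α → ℝ) :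
    EX S w (n + 1) f = ∑ b ∈ S, w b * EX S w n (fun l => f (b :: l)) := rfl

theorem EX_mono (hw : ∀ b ∈ S, 0 ≤ w b) {n : ℕ} {f g : List α → ℝ}
    (h : ∀ l, l.length = n → (∀ b ∈ l, b ∈ S) → f l ≤ g l) : EX S w n f ≤ EX S w n g := by
  induction n generalizing f g with
  | zero => exact h [] rfl (by simp)
  | succ n ih =>
    rw [EX_succ, EX_succ]
    apply Finset.sum_le_sum
    intro b hb
    apply mul_le_mul_of_nonneg_left _ (hw b hb)
    apply ih
    intro l h1 h2
    apply h
    · simp [h1]
    · intro c hc
      rcases List.mem_cons.1 hc with rfl | hc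
      · exact hb
      · exact h2 c hc

theorem EX_const_mul {n : ℕ} (c : ℝ) (f : List α → ℝ) :
    EX S w n (fun l => c * f l) = c * EX S w n f := by
  induction n generalizing f with
  | zero => rfl
  | succ n ih =>
    rw [EX_succ, EX_succ, Finset.mul_sum]
    apply Finset.sum_congr rfl
    intro b _
    rw [ih]
    ring

theorem EX_add {n : ℕ} (f g : List α → ℝ) :
    EX S w n (fun l => f l + g l) = EX S w n f + EX S w n g := by
  induction n generalizing f g with
  | zero => rfl
  | succ n ih =>
    rw [EX_succ, EX_succ, EX_succ, ← Finset.sum_add_distrib]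
    apply Finset.sum_congr rfl
    intro b _
    rw [ih]
    ring

theorem EX_fzero {n : ℕ} : EX S w n (fun _ => (0 : ℝ)) = 0 := by
  induction n with
  | zero => rfl
  | succ n ih =>
    rw [EX_succ]
    apply Finset.sum_eq_zero
    intro b _
    rw [ih, mul_zero]

theorem EX_const (hs : ∑ b ∈ S, w b = 1) {n : ℕ} (c : ℝ) : EX S w n (fun _ => c) = c := by
  induction n with
  | zero => rfl
  | succ n ih =>
    rw [EX_succ]
    simp only [ih]
    rw [← Finset.sum_mul, hs, one_mul]

theorem EX_sum {ι : Type} {n : ℕ} (A : Finset ι) (F : ι → List α → ℝ) :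
    EX S w n (fun l => ∑ x ∈ A, F x l) = ∑ x ∈ A, EX S w n (F x) := by
  classical
  induction A using Finset.induction_on with
  | empty => simpa using EX_fzero
  | insert a A ha ih =>
    rw [Finset.sum_insert ha, ← ih, ← EX_add]
    congr 1
    funext l
    rw [Finset.sum_insert ha]

theorem EX_swap (n k : ℕ) (f : List α → List α → ℝ) :
    EX S w n (fun a => EX S w k (fun b => f a b)) =
      EX S w k (fun b => EX S w n (fun a => f a b)) := by
  induction n generalizing f with
  | zero => rfl
  | succ n ih =>
    rw [EX_succ]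
    have h1 : EX S w k (fun b => EX S w (n + 1) (fun a => f a b)) =
        ∑ c ∈ S, w c * EX S w k (fun b => EX S w n (fun a => f (c :: a) b)) := by
      simp only [EX_succ]
      rw [EX_sum]
      apply Finset.sum_congr rfl
      intro c _
      rw [EX_const_mul]
    rw [h1]
    apply Finset.sum_congr rfl
    intro c _
    rw [ih]

theorem EX_take (hs : ∑ b ∈ S, w b = 1) {n j : ℕ} (hj : j ≤ n) (f : List α → ℝ) :
    EX S w n (fun l => f (l.take j)) = EX S w j f := by
  induction n generalizing j f with
  | zero =>
    have : j = 0 := by omega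
    subst this
    rfl
  | succ n ih =>
    cases j with
    | zero =>
      simp only [List.take_zero]
      rw [EX_const hs]; rfl
    | succ j =>
      rw [EX_succ, EX_succ]
      apply Finset.sum_congr rfl
      intro b _
      simp only [List.take_succ_cons]
      rw [ih (by omega) (fun l => f (b :: l))]

theorem EX_exists (hw : ∀ b ∈ S, 0 ≤ w b) (hs : ∑ b ∈ S, w b = 1) {n : ℕ} {f : List α → ℝ}
    (h : EX S w n f < 1) : ∃ l, l.length = n ∧ (∀ b ∈ l, b ∈ S) ∧ f l < 1 := by
  by_contra hcon
  push Not at hcon
  have h1 : EX S w n (fun _ => (1 : ℝ)) ≤ EX S w n f := EX_mono hw hcon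
  rw [EX_const hs] at h1
  linarith

end Pool.Agent.Y334.NA
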