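import Mathlib

/-! Non-autonomous compositions of polynomials with kicks: positions, escape, shadowing. -/

set_option autoImplicit false

open Filter Topology Metric Set Polynomial

namespace Pool.Agent.Y334.NA

/-- the position after the kicks `l`, from `z` at time `i` -/
noncomputable def run (T : ℕ → ℂ[X]) : ℕ → List ℂ → ℂ → ℂ
  | _, [], z => z
  | i, s :: l, z => run T (i + 1) l ((T i).eval z + s)

theorem run_append (T : ℕ → ℂ[X]) (i : ℕ) (l₁ l₂ : List ℂ) (z : ℂ) :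
    run T i (l₁ ++ l₂) z = run T (i + l₁.length) l₂ (run T i l₁ z) := by
  induction l₁ generalizing i z with
  | nil => rfl
  | cons s l ih =>
    rw [List.cons_append, run, ih, run, List.length_cons]
    congr 1
    omega

/-- uniform data for a sequence of polynomials -/
structure Dat (T : ℕ → ℂ[X]) (ε R Λ : ℝ) : Prop where
  esc : ∀ (i : ℕ) (z s : ℂ), R ≤ ‖z‖ → ‖s‖ ≤ ε → 2 * ‖z‖ ≤ ‖(T i).eval z + s‖
  lip : ∀ (i : ℕ) (z w : ℂ), ‖z‖ ≤ R + 3 → ‖w‖ ≤ R + 3 →
    ‖(T i).eval z - (T i).eval w‖ ≤ Λ * ‖z - w‖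
  hR : 1 ≤ R
  hΛ : 2 ≤ Λ
  hε : 0 < ε
  hε1 : ε ≤ 1

variable {T : ℕ → ℂ[X]} {ε R Λ : ℝ}

theorem big_run (h : Dat T ε R Λ) {l : List ℂ} (hl : ∀ s ∈ l, ‖s‖ < ε) {i : ℕ} {z : ℂ}
    (hz : R ≤ ‖z‖) : 2 ^ l.length * ‖z‖ ≤ ‖run T i l z‖ := by
  induction l generalizing i z with
  | nil => simp [run]
  | cons s l ih =>
    have h1 := h.esc i z s hz (hl s List.mem_cons_self).le
    have h2 := ih (fun t ht => hl t (List.mem_cons_of_mem _ ht)) (i := i + 1)
      (z := (T i).eval z + s) (by linarith [norm_nonneg z])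
    rw [List.length_cons, pow_succ]
    show 2 ^ l.length * 2 * ‖z‖ ≤ ‖run T (i + 1) l ((T i).eval z + s)‖
    have h3 : (0 : ℝ) < 2 ^ l.length := by positivity
    nlinarith

theorem big_run' (h : Dat T ε R Λ) {l : List ℂ} (hl : ∀ s ∈ l, ‖s‖ < ε) {i : ℕ} {z : ℂ}
    (hz : R ≤ ‖z‖) : ‖z‖ ≤ ‖run T i l z‖ := by
  refine le_trans ?_ (big_run h hl hz)
  have h1 : (1 : ℝ) ≤ 2 ^ l.length := one_le_pow₀ (by norm_num)
  nlinarith [norm_nonneg z]

theorem lip_run (h : Dat T ε R Λ) {l : List ℂ} (hl : ∀ s ∈ l, ‖s‖ < ε) {i : ℕ} {z w : ℂ}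
    (hzw : ‖z - w‖ * Λ ^ l.length ≤ 1) (hend : ‖run T i l z‖ ≤ R + 1) :
    ‖run T i l z - run T i l w‖ ≤ Λ ^ l.length * ‖z - w‖ := by
  induction l generalizing i z w with
  | nil => simp [run]
  | cons s l ih =>
    have hΛ := h.hΛ
    have hR := h.hR
    have hz : ‖z‖ ≤ R + 1 := by
      by_contra h1
      push Not at h1
      have := big_run' h hl (i := i) (z := z) (by linarith)
      linarith
    have hpow : (1 : ℝ) ≤ Λ ^ (s :: l).length := one_le_pow₀ (by linarith)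
    have hzw1 : ‖z - w‖ ≤ 1 := by nlinarith [norm_nonneg (z - w)]
    have hw : ‖w‖ ≤ R + 3 := by
      have : ‖w‖ ≤ ‖z‖ + ‖z - w‖ := by
        calc ‖w‖ = ‖z - (z - w)‖ := by congr 1; ring
          _ ≤ _ := norm_sub_le _ _
      linarith
    have h1 := h.lip i z w (by linarith) hw
    have h2 : ((T i).eval z + s) - ((T i).eval w + s) = (T i).eval z - (T i).eval w := by ring
    have hp : (0 : ℝ) < Λ ^ l.length := by positivity
    have h3 : ‖((T i).eval z + s) - ((T i).eval w + s)‖ * Λ ^ l.length ≤ Λ ^ (s :: l).length * ‖z - w‖ := by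
      rw [h2, List.length_cons, pow_succ]
      nlinarith
    have h4 := ih (fun t ht => hl t (List.mem_cons_of_mem _ ht)) (i := i + 1)
      (z := (T i).eval z + s) (w := (T i).eval w + s) (h3.trans (by linarith)) hend
    show ‖run T (i + 1) l ((T i).eval z + s) - run T (i + 1) l ((T i).eval w + s)‖ ≤ _
    linarith

theorem kill_run (h : Dat T ε R Λ) {l : List ℂ} (hl : ∀ s ∈ l, ‖s‖ < ε) {i : ℕ} {z w : ℂ}
    (hz : ‖z‖ ≤ R + 1) (hzw : ‖z - w‖ * Λ ^ l.length ≤ 1 / 2) (hend : R + 1 < ‖run T i l z‖) :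
    R < ‖run T i l w‖ := by
  induction l generalizing i z w with
  | nil => exact absurd hend (not_lt.2 hz)
  | cons s l ih =>
    have hΛ := h.hΛ
    have hR := h.hR
    have hpow : (1 : ℝ) ≤ Λ ^ (s :: l).length := one_le_pow₀ (by linarith)
    have hzw1 : ‖z - w‖ ≤ 1 / 2 := by nlinarith [norm_nonneg (z - w)]
    have hw : ‖w‖ ≤ R + 3 := by
      have : ‖w‖ ≤ ‖z‖ + ‖z - w‖ := by
        calc ‖w‖ = ‖z - (z - w)‖ := by congr 1; ring
          _ ≤ _ := norm_sub_le _ _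
      linarith
    have h1 := h.lip i z w (by linarith) hw
    have h2 : ((T i).eval z + s) - ((T i).eval w + s) = (T i).eval z - (T i).eval w := by ring
    have hp : (1 : ℝ) ≤ Λ ^ l.length := one_le_pow₀ (by linarith)
    have h3 : ‖((T i).eval z + s) - ((T i).eval w + s)‖ * Λ ^ l.length ≤ 1 / 2 := by
      rw [h2]
      rw [List.length_cons, pow_succ] at hzw
      nlinarith
    have hl' : ∀ t ∈ l, ‖t‖ < ε := fun t ht => hl t (List.mem_cons_of_mem _ ht)
    show R < ‖run T (i + 1) l ((T i).eval w + s)‖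
    rcases le_or_gt ‖(T i).eval z + s‖ (R + 1) with h4 | h4
    · exact ih hl' h4 h3 hend
    · have h5 : ‖((T i).eval z + s) - ((T i).eval w + s)‖ ≤ 1 / 2 := by
        nlinarith [norm_nonneg (((T i).eval z + s) - ((T i).eval w + s))]
      have h6 : ‖(T i).eval z + s‖ ≤ ‖(T i).eval w + s‖ +
          ‖((T i).eval z + s) - ((T i).eval w + s)‖ := by
        calc ‖(T i).eval z + s‖ = ‖((T i).eval w + s) +
            (((T i).eval z + s) - ((T i).eval w + s))‖ := by congr 1; ring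
          _ ≤ _ := norm_add_le _ _
      have h7 := big_run' h hl' (i := i + 1) (z := (T i).eval w + s) (by linarith)
      linarith

/-- shadowing by kicks of a net -/
theorem shadow (h : Dat T ε R Λ) {S : Finset ℂ} {δ : ℝ} (hδ : 0 ≤ δ)
    (hS : ∀ s : ℂ, ‖s‖ < ε → ∃ σ ∈ S, ‖s - σ‖ ≤ δ) {l : List ℂ} (hl : ∀ s ∈ l, ‖s‖ < ε) {i : ℕ}
    {z z' : ℂ} {x : ℝ} (hx : ‖z - z'‖ ≤ x)
    (hx1 : x * Λ ^ l.length + δ * l.length * Λ ^ l.length ≤ 1)
    (hin : ∀ l₁ l₂ : List ℂ, l = l₁ ++ l₂ → l₂ ≠ [] → ‖run T i l₁ z‖ ≤ R + 2) :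
    ∃ l' : List ℂ, l'.length = l.length ∧ (∀ s ∈ l', s ∈ S) ∧
      ‖run T i l z - run T i l' z'‖ ≤ x * Λ ^ l.length + δ * l.length * Λ ^ l.length := by
  have hΛ := h.hΛ
  have hR := h.hR
  induction l generalizing i z z' x with
  | nil => exact ⟨[], rfl, by simp, by simpa [run] using hx⟩
  | cons s l ih =>
    have hx0 : 0 ≤ x := (norm_nonneg _).trans hx
    have hpow : (1 : ℝ) ≤ Λ ^ (s :: l).length := one_le_pow₀ (by linarith)
    have hp : (1 : ℝ) ≤ Λ ^ l.length := one_le_pow₀ (by linarith)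
    have hz : ‖z‖ ≤ R + 2 := hin [] (s :: l) rfl (by simp)
    have hxle : x ≤ 1 := by
      have : 0 ≤ δ * (s :: l).length * Λ ^ (s :: l).length := by positivity
      nlinarith
    have hz' : ‖z'‖ ≤ R + 3 := by
      have : ‖z'‖ ≤ ‖z‖ + ‖z - z'‖ := by
        calc ‖z'‖ = ‖z - (z - z')‖ := by congr 1; ring
          _ ≤ _ := norm_sub_le _ _
      linarith
    obtain ⟨σ, hσ, hσ1⟩ := hS s (hl s List.mem_cons_self)
    have h1 := h.lip i z z' (by linarith) hz'
    have h2 : ‖((T i).eval z + s) - ((T i).eval z' + σ)‖ ≤ Λ * x + δ := by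
      calc ‖((T i).eval z + s) - ((T i).eval z' + σ)‖
          = ‖((T i).eval z - (T i).eval z') + (s - σ)‖ := by congr 1; ring
        _ ≤ _ := (norm_add_le _ _).trans (by nlinarith)
    have h3 : (Λ * x + δ) * Λ ^ l.length + δ * l.length * Λ ^ l.length ≤
        x * Λ ^ (s :: l).length + δ * (s :: l).length * Λ ^ (s :: l).length := by
      rw [List.length_cons, pow_succ]
      push_cast
      have h4 : δ * (l.length + 1) * Λ ^ l.length ≤ δ * (l.length + 1) * (Λ ^ l.length * Λ) := by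
        have : 0 ≤ δ * (l.length + 1) * Λ ^ l.length := by positivity
        nlinarith
      nlinarith
    obtain ⟨l', hl1, hl2, hl3⟩ := ih (fun t ht => hl t (List.mem_cons_of_mem _ ht)) (i := i + 1)
      (z := (T i).eval z + s) (z' := (T i).eval z' + σ) h2 (h3.trans hx1) (by
        intro l₁ l₂ h4 h5
        exact hin (s :: l₁) l₂ (by rw [h4, List.cons_append]) h5)
    refine ⟨σ :: l', by simp [hl1], ?_, ?_⟩
    · intro t ht
      rcases List.mem_cons.1 ht with rfl | ht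
      · exact hσ
      · exact hl2 t ht
    · show ‖run T (i + 1) l ((T i).eval z + s) - run T (i + 1) l' ((T i).eval z' + σ)‖ ≤ _
      exact hl3.trans h3

/-- all noisy orbits of length at most `m` stay in the disc of radius `R + 2` -/
def Bt (T : ℕ → ℂ[X]) (ε R : ℝ) (i m : ℕ) (z : ℂ) : Prop :=
  ∀ l : List ℂ, l.length ≤ m → (∀ s ∈ l, ‖s‖ < ε) → ‖run T i l z‖ ≤ R + 2

/-- if this is not the case, some kicks of the net kill -/
theorem net_kill (h : Dat T ε R Λ) {S : Finset ℂ} {m : ℕ} (hm : 1 ≤ m)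
    (hS : ∀ s : ℂ, ‖s‖ < ε → ∃ σ ∈ S, ‖s - σ‖ ≤ 1 / (m * Λ ^ m)) (hS0 : (0 : ℂ) ∈ S)
    (hS1 : ∀ s ∈ S, ‖s‖ < ε) {i : ℕ} {z : ℂ} (hz : ¬ Bt T ε R i m z) :
    ∃ l : List ℂ, l.length = m ∧ (∀ s ∈ l, s ∈ S) ∧ R + 1 < ‖run T i l z‖ := by
  classical
  have hΛ := h.hΛ
  have hR := h.hR
  unfold Bt at hz
  push Not at hz
  have hex : ∃ k : ℕ, ∃ l : List ℂ, l.length = k ∧ k ≤ m ∧ (∀ s ∈ l, ‖s‖ < ε) ∧
      R + 2 < ‖run T i l z‖ := by
    obtain ⟨l, h1, h2, h3⟩ := hz
    exact ⟨l.length, l, rfl, h1, h2, h3⟩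
  obtain ⟨l, h1, h2, h3, h4⟩ := Nat.find_spec hex
  have hmin := fun k (hk : k < Nat.find hex) => Nat.find_min hex hk
  set k := Nat.find hex with hk
  have hm0 : (0 : ℝ) < m := by exact_mod_cast hm
  have hpm : (0 : ℝ) < Λ ^ m := by positivity
  have hδ : (0 : ℝ) ≤ 1 / (m * Λ ^ m) := by positivity
  have hbound : 0 * Λ ^ l.length + 1 / (m * Λ ^ m) * l.length * Λ ^ l.length ≤ 1 := by
    rw [zero_mul, zero_add]
    have h5 : (l.length : ℝ) ≤ m := by exact_mod_cast (by omega : l.length ≤ m)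
    have h6 : Λ ^ l.length ≤ Λ ^ m := pow_le_pow_right₀ (by linarith) (by omega)
    calc 1 / (m * Λ ^ m) * l.length * Λ ^ l.length ≤ 1 / (m * Λ ^ m) * m * Λ ^ m := by
          gcongr
      _ = 1 := by field_simp
  obtain ⟨l', hl1, hl2, hl3⟩ := shadow h hδ hS h3 (i := i) (z := z) (z' := z) (x := 0)
    (by simp) hbound (by
      intro l₁ l₂ h5 h6
      by_contra h7
      push Not at h7
      have h8 : l₁.length < k := by
        rw [← h1, h5, List.length_append]
        have := List.length_pos_iff.2 h6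
        omega
      refine hmin _ h8 ⟨l₁, rfl, by omega, fun s hs => h3 s ?_, h7⟩
      rw [h5]
      exact List.mem_append_left _ hs)
  have h9 : R + 1 < ‖run T i l' z‖ := by
    have h10 : ‖run T i l z‖ ≤ ‖run T i l' z‖ + ‖run T i l z - run T i l' z‖ := by
      calc ‖run T i l z‖ = ‖run T i l' z + (run T i l z - run T i l' z)‖ := by congr 1; ring
        _ ≤ _ := norm_add_le _ _
    linarith
  refine ⟨l' ++ List.replicate (m - l'.length) 0, ?_, ?_, ?_⟩
  · rw [List.length_append, List.length_replicate]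
    omega
  · intro s hs
    rcases List.mem_append.1 hs with hs | hs
    · exact hl2 s hs
    · rw [(List.mem_replicate.1 hs).2]
      exact hS0
  · rw [run_append]
    refine lt_of_lt_of_le h9 (big_run' h ?_ (by linarith))
    intro s hs
    rw [(List.mem_replicate.1 hs).2]
    exact hS1 0 hS0

end Pool.Agent.Y334.NA
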