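import Mathlib
import Pool.Agent.Y334.NA.Run

/-! Contraction of blocks without kicks, under a robustness assumption. -/

set_option autoImplicit false

open Filter Topology Metric Set Polynomial

namespace Pool.Agent.Y334.NA

/-- the iteration without kicks -/
noncomputable def It (T : ℕ → ℂ[X]) (i k : ℕ) (z : ℂ) : ℂ := run T i (List.replicate k 0) z

theorem It_zero (T : ℕ → ℂ[X]) (i : ℕ) (z : ℂ) : It T i 0 z = z := rfl

theorem It_succ (T : ℕ → ℂ[X]) (i k : ℕ) (z : ℂ) :
    It T i (k + 1) z = (T (i + k)).eval (It T i k z) := by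
  rw [It, List.replicate_succ', run_append, List.length_replicate]
  simp [run, It]

theorem It_succ' (T : ℕ → ℂ[X]) (i k : ℕ) (z : ℂ) :
    It T i (k + 1) z = It T (i + 1) k ((T i).eval z) := by
  rw [It, List.replicate_succ, run, add_zero, It]

theorem It_diff (T : ℕ → ℂ[X]) (i k : ℕ) : Differentiable ℂ (It T i k) := by
  induction k with
  | zero => exact differentiable_id
  | succ k ih =>
    have h : It T i (k + 1) = fun z => (T (i + k)).eval (It T i k z) := by
      funext z; exact It_succ T i k z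
    rw [h]
    exact (T (i + k)).differentiable.comp ih

/-- Contraction of the Caratheodory metrics along a sequence of maps. -/
theorem carath {T : ℕ → ℂ[X]} {i : ℕ} {O : ℕ → Set ℂ} (hO : ∀ k, IsOpen (O k)) {R η : ℝ}
    (hR : 0 ≤ R) (hη : 0 < η) {n : ℕ}
    (hB : ∀ k < n, ∀ z ∈ O k, ‖(T (i + k)).eval z‖ ≤ R)
    (hm : ∀ k < n, ∀ z ∈ O k, ball ((T (i + k)).eval z) η ⊆ O (k + 1))
    {y : ℂ} {r : ℝ} (hr : 0 < r) (hy : closedBall y r ⊆ O 0) (k : ℕ) (hk : k ≤ n) :
    ∀ G : ℂ → ℂ, DifferentiableOn ℂ G (O k) → (∀ z ∈ O k, ‖G z‖ ≤ 1) →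
      ‖deriv G (It T i k y)‖ * ‖deriv (It T i k) y‖ * (1 + η / (4 * (R + 1))) ^ k ≤ 1 / r := by
  have hyO : y ∈ O 0 := hy (mem_closedBall_self hr.le)
  have hmaps : ∀ k < n, ∀ z ∈ O k, (T (i + k)).eval z ∈ O (k + 1) :=
    fun k hk z hz => hm k hk z hz (mem_ball_self hη)
  have hiter : ∀ k ≤ n, It T i k y ∈ O k := by
    intro k
    induction k with
    | zero => intro _; exact hyO
    | succ k ih => intro hk; rw [It_succ]; exact hmaps k (by omega) _ (ih (by omega))
  induction k with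
  | zero =>
    intro G hG hG1
    have h1 : ‖deriv G y‖ ≤ 1 / r := by
      apply Complex.norm_deriv_le_of_forall_mem_sphere_norm_le hr
      · apply DifferentiableOn.diffContOnCl
        rw [closure_ball y hr.ne']
        exact hG.mono hy
      · intro z hz
        exact hG1 z (hy (sphere_subset_closedBall hz))
    have h2 : It T i 0 = id := rfl
    rw [h2]
    simpa using h1
  | succ k ih =>
    intro G hG hG1
    set f : ℂ → ℂ := fun u => (T (i + k)).eval u with hf
    have hfd : Differentiable ℂ f := (T (i + k)).differentiable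
    set δ : ℝ := η / (4 * (R + 1)) with hδ
    have hδ0 : 0 < δ := by positivity
    set w : ℂ := It T i k y with hw
    have hwO : w ∈ O k := hiter k (by omega)
    set g : ℂ → ℂ := fun u => f u + (δ : ℂ) * (f u - f w) with hg
    have hgO : ∀ u ∈ O k, g u ∈ O (k + 1) := by
      intro u hu
      apply hm k (by omega) u hu
      rw [mem_ball, dist_eq_norm]
      have h1 : g u - (T (i + k)).eval u = (δ : ℂ) * (f u - f w) := by simp [hg, hf]
      rw [h1, norm_mul, Complex.norm_real, Real.norm_eq_abs, abs_of_pos hδ0]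
      have h2 : ‖f u - f w‖ ≤ 2 * R := by
        have := norm_sub_le (f u) (f w)
        have h3 := hB k (by omega) u hu
        have h4 := hB k (by omega) w hwO
        simp only [hf] at this ⊢
        linarith
      calc δ * ‖f u - f w‖ ≤ δ * (2 * R) := by gcongr
        _ < δ * (4 * (R + 1)) := by
          apply mul_lt_mul_of_pos_left _ hδ0
          linarith
        _ = η := by rw [hδ]; field_simp
    have hgd : Differentiable ℂ g := by
      intro u
      exact (hfd u).add (((hfd u).sub (differentiableAt_const _)).const_mul _)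
    have hgw : g w = f w := by simp [hg]
    have hgw' : deriv g w = (1 + (δ : ℂ)) * deriv f w := by
      have h1 : HasDerivAt g (deriv f w + (δ : ℂ) * (deriv f w)) w := by
        have h2 := (hfd w).hasDerivAt
        exact h2.add ((h2.sub_const (f w)).const_mul (δ : ℂ))
      rw [h1.deriv]; ring
    have h1 := ih (by omega) (G ∘ g) (hG.comp hgd.differentiableOn hgO)
      (fun z hz => hG1 _ (hgO z hz))
    have h2 : deriv (G ∘ g) w = deriv G (f w) * ((1 + (δ : ℂ)) * deriv f w) := by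
      rw [deriv_comp w, hgw, hgw']
      · rw [hgw]
        exact hG.differentiableAt ((hO (k + 1)).mem_nhds (hmaps k (by omega) w hwO))
      · exact hgd w
    rw [h2] at h1
    have h3 : ‖(1 + (δ : ℂ))‖ = 1 + δ := by
      have : (1 + (δ : ℂ)) = ((1 + δ : ℝ) : ℂ) := by push_cast; ring
      rw [this, Complex.norm_real, Real.norm_eq_abs, abs_of_pos (by linarith)]
    rw [norm_mul, norm_mul, h3] at h1
    have h4 : deriv (It T i (k + 1)) y = deriv f w * deriv (It T i k) y := by
      have h5 : It T i (k + 1) = f ∘ It T i k := by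
        funext z; exact It_succ T i k z
      rw [h5]
      exact deriv_comp y (hfd _) (It_diff T i k y)
    rw [h4, norm_mul, It_succ]
    calc ‖deriv G ((T (i + k)).eval w)‖ * (‖deriv f w‖ * ‖deriv (It T i k) y‖) * (1 + δ) ^ (k + 1)
        = ‖deriv G (f w)‖ * ((1 + δ) * ‖deriv f w‖) * ‖deriv (It T i k) y‖ * (1 + δ) ^ k := by
          simp only [hf]; ring
      _ ≤ 1 / r := h1

variable {T : ℕ → ℂ[X]} {ε R Λ : ℝ}

/-- the reachable sets after `k + 1` steps -/
def Rch (T : ℕ → ℂ[X]) (ε : ℝ) (i : ℕ) (z : ℂ) (k : ℕ) : Set ℂ :=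
  {u | ∃ l : List ℂ, l.length = k + 1 ∧ (∀ s ∈ l, ‖s‖ < ε) ∧ run T i l z = u}

theorem Rch_open (T : ℕ → ℂ[X]) (ε : ℝ) (i : ℕ) (z : ℂ) (k : ℕ) : IsOpen (Rch T ε i z k) := by
  rw [Metric.isOpen_iff]
  rintro u ⟨l, h1, h2, h3⟩
  have hne : l ≠ [] := by rintro rfl; simp at h1
  obtain ⟨l', s, rfl⟩ : ∃ l' s, l = l' ++ [s] := ⟨l.dropLast, l.getLast hne,
    (List.dropLast_append_getLast hne).symm⟩
  have hs : ‖s‖ < ε := h2 s (by simp)
  refine ⟨ε - ‖s‖, by linarith, ?_⟩
  intro v hv
  rw [mem_ball, dist_eq_norm] at hv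
  refine ⟨l' ++ [s + (v - u)], by simpa using h1, ?_, ?_⟩
  · intro t ht
    rcases List.mem_append.1 ht with ht | ht
    · exact h2 t (by simp [ht])
    · rw [List.mem_singleton] at ht
      rw [ht]
      exact (norm_add_le _ _).trans_lt (by linarith)
  · rw [run_append] at h3 ⊢
    simp only [run] at h3 ⊢
    rw [← h3]
    ring

theorem Rch_step {i : ℕ} {z : ℂ} {k : ℕ} {u : ℂ} (hu : u ∈ Rch T ε i z k) :
    ball ((T (i + 1 + k)).eval u) ε ⊆ Rch T ε i z (k + 1) := by
  obtain ⟨l, h1, h2, h3⟩ := hu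
  intro v hv
  rw [mem_ball, dist_eq_norm] at hv
  refine ⟨l ++ [v - (T (i + 1 + k)).eval u], by simp [h1], ?_, ?_⟩
  · intro t ht
    rcases List.mem_append.1 ht with ht | ht
    · exact h2 t ht
    · rw [List.mem_singleton] at ht
      rw [ht]; exact hv
  · rw [run_append, h3, h1]
    simp only [run]
    have : i + (k + 1) = i + 1 + k := by ring
    rw [this]
    ring

/-- The number of steps after which a robust block contracts. -/
theorem block_contr (hR : 1 ≤ R) (hΛ : 2 ≤ Λ) (hε : 0 < ε) :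
    ∃ m₀ : ℕ, ∀ m ≥ m₀, ∀ T : ℕ → ℂ[X], Dat T ε R Λ → ∀ (i : ℕ) (z w : ℂ), ‖z‖ ≤ R + 1 →
      Bt T ε R i m z → ‖z - w‖ ≤ ε / (8 * Λ) → ‖It T i m z - It T i m w‖ ≤ 1 / 4 * ‖z - w‖ := by
  have hΛ0 : 0 < Λ := by linarith
  set q : ℝ := 1 + ε / (4 * (R + 2 + 1)) with hq
  have hq1 : 1 < q := by
    rw [hq]
    have : 0 < ε / (4 * (R + 2 + 1)) := by positivity
    linarith
  obtain ⟨m₀, hm₀⟩ : ∃ m₀ : ℕ, ∀ m ≥ m₀, Λ * ((R + 3) / (ε / 2)) / q ^ m ≤ 1 / 4 := by
    have h1 : Tendsto (fun m : ℕ => Λ * ((R + 3) / (ε / 2)) / q ^ m) atTop (𝓝 0) :=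
      tendsto_const_nhds.div_atTop (tendsto_pow_atTop_atTop_of_one_lt hq1)
    obtain ⟨m₀, h2⟩ := eventually_atTop.1 (h1.eventually (ge_mem_nhds (by norm_num : (0:ℝ) < 1/4)))
    exact ⟨m₀, fun m hm => h2 m hm⟩
  refine ⟨m₀ + 1, fun m hm T h i z w hz hBt hzw => ?_⟩
  obtain ⟨n, rfl⟩ : ∃ n, m = n + 1 := ⟨m - 1, by omega⟩
  have hn : m₀ ≤ n := by omega
  have hε1 := h.hε1
  have hw : ‖w‖ ≤ R + 3 := by
    have h1 : ‖w‖ ≤ ‖z‖ + ‖z - w‖ := by
      calc ‖w‖ = ‖z - (z - w)‖ := by congr 1; ring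
        _ ≤ _ := norm_sub_le _ _
    have h2 : ε / (8 * Λ) ≤ 1 := by
      rw [div_le_one (by positivity)]
      nlinarith
    linarith
  have hstep := h.lip i z w (by linarith) hw
  have hstep2 : ‖(T i).eval z - (T i).eval w‖ ≤ ε / 4 := by
    refine hstep.trans ?_
    calc Λ * ‖z - w‖ ≤ Λ * (ε / (8 * Λ)) := by gcongr
      _ = ε / 8 := by field_simp
      _ ≤ ε / 4 := by linarith
  -- the derivative in the ball
  have hder : ∀ y ∈ closedBall ((T i).eval z) (ε / 4),
      ‖deriv (It T (i + 1) n) y‖ ≤ (R + 3) / (ε / 2) / q ^ n := by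
    intro y hy
    have hball : closedBall y (ε / 2) ⊆ Rch T ε i z 0 := by
      intro u hu
      refine ⟨[u - (T i).eval z], by simp, ?_, ?_⟩
      · intro s hs
        rw [List.mem_singleton] at hs
        rw [hs]
        rw [mem_closedBall, dist_eq_norm] at hy hu
        calc ‖u - (T i).eval z‖ = ‖(u - y) + (y - (T i).eval z)‖ := by congr 1; ring
          _ ≤ ‖u - y‖ + ‖y - (T i).eval z‖ := norm_add_le _ _
          _ < ε := by linarith
      · simp only [run]; ring
    have hnorm : ∀ k ≤ n, ∀ u ∈ Rch T ε i z k, ‖u‖ ≤ R + 2 := by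
      rintro k hk u ⟨l, h1, h2, rfl⟩
      exact hBt l (by omega) h2
    have h1 := carath (T := T) (i := i + 1) (O := Rch T ε i z) (Rch_open T ε i z) (R := R + 2)
      (η := ε) (n := n) (by linarith) hε (by
        intro k hk u hu
        exact hnorm (k + 1) (by omega) _ (Rch_step hu (mem_ball_self hε)))
      (fun k hk u hu => Rch_step hu) (y := y) (r := ε / 2) (by positivity) hball n le_rfl
      (fun u => u / ((R + 3 : ℝ) : ℂ)) ((differentiable_id.div_const _).differentiableOn) (by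
        intro u hu
        rw [norm_div, Complex.norm_real, Real.norm_eq_abs, abs_of_pos (by linarith : (0:ℝ) < R + 3),
          div_le_one (by linarith)]
        have := hnorm n le_rfl u hu
        linarith)
    have h2 : deriv (fun u : ℂ => u / ((R + 3 : ℝ) : ℂ)) (It T (i + 1) n y) =
        1 / ((R + 3 : ℝ) : ℂ) := by simp
    rw [h2, norm_div, norm_one, Complex.norm_real, Real.norm_eq_abs,
      abs_of_pos (by linarith : (0:ℝ) < R + 3), ← hq] at h1
    have hqk : 0 < q ^ n := by positivity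
    have hR1 : (0:ℝ) < R + 3 := by linarith
    have hr : 0 < ε / 2 := by positivity
    rw [div_div, le_div_iff₀ (by positivity)]
    have h3 : 1 / (R + 3) * ‖deriv (It T (i + 1) n) y‖ * q ^ n * ((R + 3) * (ε / 2)) ≤
        1 / (ε / 2) * ((R + 3) * (ε / 2)) := by
      gcongr
    have h4 : 1 / (R + 3) * ‖deriv (It T (i + 1) n) y‖ * q ^ n * ((R + 3) * (ε / 2)) =
        ‖deriv (It T (i + 1) n) y‖ * ((ε / 2) * q ^ n) := by field_simp
    have h5 : 1 / (ε / 2) * ((R + 3) * (ε / 2)) = R + 3 := by field_simp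
    rw [h4, h5] at h3
    exact h3
  have hq0 : 0 ≤ (R + 3) / (ε / 2) / q ^ n := by positivity
  have hzmem : (T i).eval z ∈ closedBall ((T i).eval z) (ε / 4) := mem_closedBall_self (by positivity)
  have hwmem : (T i).eval w ∈ closedBall ((T i).eval z) (ε / 4) := by
    rw [mem_closedBall, dist_eq_norm, norm_sub_rev]
    exact hstep2
  have hlip := (convex_closedBall ((T i).eval z) (ε / 4)).norm_image_sub_le_of_norm_deriv_le
    (f := It T (i + 1) n) (C := (R + 3) / (ε / 2) / q ^ n)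
    (fun x _ => It_diff T (i + 1) n x) hder hwmem hzmem
  rw [It_succ', It_succ']
  calc ‖It T (i + 1) n ((T i).eval z) - It T (i + 1) n ((T i).eval w)‖
      ≤ (R + 3) / (ε / 2) / q ^ n * ‖(T i).eval z - (T i).eval w‖ := hlip
    _ ≤ (R + 3) / (ε / 2) / q ^ n * (Λ * ‖z - w‖) := by gcongr
    _ = Λ * ((R + 3) / (ε / 2)) / q ^ n * ‖z - w‖ := by ring
    _ ≤ 1 / 4 * ‖z - w‖ := mul_le_mul_of_nonneg_right (hm₀ n hn) (norm_nonneg _)

end Pool.Agent.Y334.NA
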