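import Mathlib
import Pool.Agent.Y334.NA.Carath
import Pool.Agent.Y334.NA.EX

/-! One block of kicks: the expected growth. -/

set_option autoImplicit false

open Filter Topology Metric Set Polynomial

namespace Pool.Agent.Y334.NA

/-- all lists of length `m` with entries in `S` -/
noncomputable def lists (S : Finset ℂ) (m : ℕ) : Finset (List ℂ) :=
  (Fintype.piFinset fun _ : Fin m => S).image List.ofFn

theorem mem_lists {S : Finset ℂ} {m : ℕ} {l : List ℂ} :
    l ∈ lists S m ↔ l.length = m ∧ ∀ s ∈ l, s ∈ S := by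
  constructor
  · intro h
    obtain ⟨f, hf, rfl⟩ := Finset.mem_image.1 h
    rw [Fintype.mem_piFinset] at hf
    refine ⟨by simp, fun s hs => ?_⟩
    obtain ⟨i, rfl⟩ := (List.mem_ofFn' f s).1 hs
    exact hf i
  · rintro ⟨rfl, h⟩
    refine Finset.mem_image.2 ⟨fun i => l.get i, ?_, List.ofFn_get l⟩
    rw [Fintype.mem_piFinset]
    intro i
    exact h _ (List.get_mem l i)

/-- the local Lipschitz constant of a block -/
noncomputable def Wt (T : ℕ → ℂ[X]) (ε R Λ : ℝ) (m i : ℕ) (z : ℂ) (b : List ℂ) : ℝ :=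
  open scoped Classical in
  if Bt T ε R i m z ∧ b = List.replicate m 0 then 1 / 4 else Λ ^ m

theorem Wt_pos {T : ℕ → ℂ[X]} {ε R Λ : ℝ} (hΛ : 2 ≤ Λ) {m i : ℕ} {z : ℂ} {b : List ℂ} :
    0 < Wt T ε R Λ m i z b := by
  unfold Wt
  split_ifs
  · norm_num
  · positivity

theorem Wt_le {T : ℕ → ℂ[X]} {ε R Λ : ℝ} (hΛ : 2 ≤ Λ) {m i : ℕ} {z : ℂ} {b : List ℂ} :
    Wt T ε R Λ m i z b ≤ Λ ^ m := by
  unfold Wt
  split_ifs
  · have : (1 : ℝ) ≤ Λ ^ m := one_le_pow₀ (by linarith)
    linarith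
  · exact le_rfl

/-- indicator of being alive -/
noncomputable def al (R : ℝ) (z : ℂ) : ℝ := open scoped Classical in if ‖z‖ ≤ R + 1 then 1 else 0

theorem al_le (R : ℝ) (z : ℂ) : al R z ≤ 1 := by unfold al; split_ifs <;> norm_num

theorem al_nonneg (R : ℝ) (z : ℂ) : 0 ≤ al R z := by unfold al; split_ifs <;> norm_num

/-- The blocks and their weights. -/
theorem block_data {ε R Λ : ℝ} (hR : 1 ≤ R) (hΛ : 2 ≤ Λ) (hε : 0 < ε) :
    ∃ (S : Finset ℂ) (m : ℕ) (B : Finset (List ℂ)) (w : List ℂ → ℝ) (lam q : ℝ),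
      ((0 : ℂ) ∈ S ∧ ∀ s ∈ S, ‖s‖ < ε) ∧ 1 ≤ m ∧ 0 < lam ∧ 0 < q ∧ q < 1 ∧
      (∀ b ∈ B, b.length = m ∧ ∀ s ∈ b, s ∈ S) ∧ (∀ b ∈ B, 0 ≤ w b) ∧ ∑ b ∈ B, w b = 1 ∧
      (∀ T : ℕ → ℂ[X], Dat T ε R Λ → ∀ (i : ℕ) (z w : ℂ), ‖z‖ ≤ R + 1 →
        Bt T ε R i m z → ‖z - w‖ ≤ ε / (8 * Λ) → ‖It T i m z - It T i m w‖ ≤ 1 / 4 * ‖z - w‖) ∧
      ∀ T : ℕ → ℂ[X], Dat T ε R Λ → ∀ (i : ℕ) (z : ℂ), ‖z‖ ≤ R + 1 →
        ∑ b ∈ B, w b * (Wt T ε R Λ m i z b ^ lam * al R (run T i b z)) ≤ q := by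
  classical
  obtain ⟨m₀, hm₀⟩ := block_contr hR hΛ hε
  obtain ⟨m, hm0, hm1⟩ : ∃ m, m₀ ≤ m ∧ 1 ≤ m := ⟨m₀ + 1, by omega, by omega⟩
  have hLm : (1 : ℝ) ≤ Λ ^ m := one_le_pow₀ (by linarith)
  have hLm0 : (0 : ℝ) < Λ ^ m := by linarith
  have hm' : (0 : ℝ) < m := by exact_mod_cast hm1
  -- the net of kicks
  obtain ⟨t, hts, htf, htc⟩ := Metric.finite_approx_of_totallyBounded
    ((isCompact_closedBall (0 : ℂ) ε).totallyBounded.subset ball_subset_closedBall)
    (1 / (m * Λ ^ m)) (by positivity)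
  set S : Finset ℂ := insert 0 htf.toFinset with hS
  have hS0 : (0 : ℂ) ∈ S := Finset.mem_insert_self _ _
  have hS1 : ∀ s ∈ S, ‖s‖ < ε := by
    intro s hs
    rcases Finset.mem_insert.1 hs with rfl | hs
    · simpa using hε
    · have h1 : s ∈ ball (0 : ℂ) ε := hts (htf.mem_toFinset.1 hs)
      rwa [mem_ball_zero_iff] at h1
  have hS2 : ∀ s : ℂ, ‖s‖ < ε → ∃ σ ∈ S, ‖s - σ‖ ≤ 1 / (m * Λ ^ m) := by
    intro s hs
    have h1 : s ∈ ball (0 : ℂ) ε := by rwa [mem_ball_zero_iff]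
    obtain ⟨σ, hσ, h2⟩ := mem_iUnion₂.1 (htc h1)
    refine ⟨σ, Finset.mem_insert_of_mem (htf.mem_toFinset.2 hσ), ?_⟩
    have h3 : dist s σ < 1 / (m * Λ ^ m) := h2
    rw [dist_eq_norm] at h3
    exact h3.le
  set B : Finset (List ℂ) := lists S m with hB
  set z₀ : List ℂ := List.replicate m 0 with hz₀
  have hz₀B : z₀ ∈ B := by
    rw [hB, mem_lists]
    refine ⟨by simp [hz₀], fun s hs => ?_⟩
    rw [(List.mem_replicate.1 hs).2]
    exact hS0
  have hcard : (1 : ℝ) ≤ B.card := by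
    exact_mod_cast Finset.card_pos.2 ⟨_, hz₀B⟩
  set κ : ℝ := 1 / (4 * Λ ^ m) with hκ
  have hκ0 : 0 < κ := by positivity
  have hκ1 : κ ≤ 1 / 4 := by
    rw [hκ]
    apply one_div_le_one_div_of_le <;> linarith
  set p : ℝ := κ / B.card with hp
  have hp0 : 0 < p := by positivity
  have hp1 : p ≤ 1 / 4 := by
    rw [hp, div_le_iff₀ (by linarith)]
    nlinarith
  set w : List ℂ → ℝ := fun b => p + if b = z₀ then 1 - κ else 0 with hw
  have hwp : ∀ b, p ≤ w b := by
    intro b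
    simp only [hw]
    split_ifs
    · linarith
    · linarith
  have hwsum : ∑ b ∈ B, w b = 1 := by
    simp only [hw]
    rw [Finset.sum_add_distrib, Finset.sum_const, nsmul_eq_mul, Finset.sum_ite_eq', if_pos hz₀B, hp]
    field_simp
    ring
  set lam : ℝ := p / Λ ^ m with hlam
  have hlam0 : 0 < lam := by positivity
  have hlam1 : lam ≤ 1 := by
    rw [hlam, div_le_one hLm0]
    linarith
  have hbern : ∀ x : ℝ, 0 ≤ x → x ^ lam ≤ 1 + lam * (x - 1) := by
    intro x hx
    have := rpow_one_add_le_one_add_mul_self (s := x - 1) (by linarith) hlam0.le hlam1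
    rwa [add_sub_cancel] at this
  have hbig : (Λ ^ m) ^ lam ≤ 1 + p := by
    refine (hbern _ hLm0.le).trans ?_
    have h1 : lam * Λ ^ m = p := by rw [hlam]; field_simp
    nlinarith
  refine ⟨S, m, B, w, lam, max (1 - lam / 2) (1 - p ^ 2), ⟨hS0, hS1⟩, hm1, hlam0, ?_, ?_, ?_, ?_,
    hwsum,
    fun T h i z w' h1 h2 h3 => hm₀ m hm0 T h i z w' h1 h2 h3, ?_⟩
  · exact lt_of_lt_of_le (by linarith) (le_max_left _ _)
  · exact max_lt (by linarith) (by nlinarith)
  · intro b hb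
    rw [hB, mem_lists] at hb
    exact hb
  · intro b _
    exact hp0.le.trans (hwp b)
  · intro T h i z hz
    by_cases hBt : Bt T ε R i m z
    · -- robust case
      refine le_trans ?_ (le_max_left _ _)
      have h1 : ∀ b ∈ B, w b * (Wt T ε R Λ m i z b ^ lam * al R (run T i b z)) ≤
          w b * (1 + lam * (Wt T ε R Λ m i z b - 1)) := by
        intro b hb
        apply mul_le_mul_of_nonneg_left _ (hp0.le.trans (hwp b))
        have h2 := hbern _ (Wt_pos (T := T) (ε := ε) (R := R) hΛ (m := m) (i := i) (z := z)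
          (b := b)).le
        have h3 := al_le R (run T i b z)
        have h4 : 0 ≤ Wt T ε R Λ m i z b ^ lam := Real.rpow_nonneg (Wt_pos hΛ).le _
        nlinarith
      refine (Finset.sum_le_sum h1).trans ?_
      have h5 : ∑ b ∈ B, w b * Wt T ε R Λ m i z b ≤ 1 / 2 := by
        have h6 : ∀ b ∈ B, w b * Wt T ε R Λ m i z b ≤ p * Λ ^ m +
            (if b = z₀ then (1 - κ) * (1 / 4) else 0) := by
          intro b _
          simp only [hw]
          by_cases hb : b = z₀
          · have h7 : Wt T ε R Λ m i z b = 1 / 4 := by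
              unfold Wt
              rw [if_pos ⟨hBt, hb⟩]
            rw [h7, if_pos hb, if_pos hb]
            nlinarith
          · rw [if_neg hb, if_neg hb, add_zero, add_zero]
            exact mul_le_mul_of_nonneg_left (Wt_le hΛ) hp0.le
        refine (Finset.sum_le_sum h6).trans ?_
        rw [Finset.sum_add_distrib, Finset.sum_const, nsmul_eq_mul, Finset.sum_ite_eq',
          if_pos hz₀B]
        have h8 : (B.card : ℝ) * (p * Λ ^ m) = 1 / 4 := by
          rw [hp, hκ]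
          field_simp
        rw [h8]
        linarith
      have h9 : ∑ b ∈ B, w b * (1 + lam * (Wt T ε R Λ m i z b - 1)) =
          (1 - lam) * ∑ b ∈ B, w b + lam * ∑ b ∈ B, w b * Wt T ε R Λ m i z b := by
        rw [Finset.mul_sum, Finset.mul_sum, ← Finset.sum_add_distrib]
        apply Finset.sum_congr rfl
        intro b _
        ring
      rw [h9, hwsum]
      nlinarith
    · -- some block kills
      refine le_trans ?_ (le_max_right _ _)
      obtain ⟨l, hl1, hl2, hl3⟩ := net_kill h hm1 hS2 hS0 hS1 hBt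
      have hlB : l ∈ B := by rw [hB, mem_lists]; exact ⟨hl1, hl2⟩
      have h1 : ∀ b ∈ B, w b * (Wt T ε R Λ m i z b ^ lam * al R (run T i b z)) ≤
          (1 + p) * (w b - if b = l then p else 0) := by
        intro b _
        have hwb := hwp b
        by_cases hb : b = l
        · rw [if_pos hb, hb]
          have : al R (run T i l z) = 0 := by
            unfold al
            rw [if_neg (not_le.2 hl3)]
          rw [this, mul_zero, mul_zero]
          rw [hb] at hwb
          exact mul_nonneg (by linarith) (by linarith)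
        · rw [if_neg hb, sub_zero]
          have h2 : Wt T ε R Λ m i z b ^ lam ≤ 1 + p :=
            (Real.rpow_le_rpow (Wt_pos hΛ).le (Wt_le hΛ) hlam0.le).trans hbig
          have h3 := al_le R (run T i b z)
          have h3' := al_nonneg R (run T i b z)
          have h4 : 0 ≤ Wt T ε R Λ m i z b ^ lam := Real.rpow_nonneg (Wt_pos hΛ).le _
          have h5 : Wt T ε R Λ m i z b ^ lam * al R (run T i b z) ≤ 1 + p := by nlinarith
          nlinarith
      refine (Finset.sum_le_sum h1).trans ?_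
      rw [← Finset.mul_sum, Finset.sum_sub_distrib, hwsum, Finset.sum_ite_eq', if_pos hlB]
      nlinarith

end Pool.Agent.Y334.NA
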