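import Mathlib
import Pool.Agent.Y334.NA.Block

/-! Many blocks: with high probability a small disc is sent to one of few places. -/

set_option autoImplicit false

open Filter Topology Metric Set Polynomial

namespace Pool.Agent.Y334.NA

/-- the product of the local Lipschitz constants along blocks -/
noncomputable def PW (T : ℕ → ℂ[X]) (ε R Λ : ℝ) (m : ℕ) : ℕ → ℂ → List (List ℂ) → ℝ
  | _, _, [] => 1
  | i, z, b :: bs => Wt T ε R Λ m i z b * PW T ε R Λ m (i + m) (run T i b z) bs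

theorem PW_nil (T : ℕ → ℂ[X]) (ε R Λ : ℝ) (m i : ℕ) (z : ℂ) : PW T ε R Λ m i z [] = 1 := rfl

theorem PW_cons (T : ℕ → ℂ[X]) (ε R Λ : ℝ) (m i : ℕ) (z : ℂ) (b : List ℂ) (bs : List (List ℂ)) :
    PW T ε R Λ m i z (b :: bs) =
      Wt T ε R Λ m i z b * PW T ε R Λ m (i + m) (run T i b z) bs := rfl

theorem PW_pos {T : ℕ → ℂ[X]} {ε R Λ : ℝ} (hΛ : 2 ≤ Λ) {m i : ℕ} {z : ℂ} {bs : List (List ℂ)} :
    0 < PW T ε R Λ m i z bs := by
  induction bs generalizing i z with
  | nil => rw [PW_nil]; norm_num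
  | cons b bs ih => rw [PW_cons]; exact mul_pos (Wt_pos hΛ) ih

/-- the position after the blocks `bs` -/
noncomputable def rb (T : ℕ → ℂ[X]) (i : ℕ) (bs : List (List ℂ)) (z : ℂ) : ℂ := run T i bs.flatten z

theorem rb_nil (T : ℕ → ℂ[X]) (i : ℕ) (z : ℂ) : rb T i [] z = z := rfl

theorem rb_cons (T : ℕ → ℂ[X]) {i m : ℕ} {b : List ℂ} (hb : b.length = m) (bs : List (List ℂ))
    (z : ℂ) : rb T i (b :: bs) z = rb T (i + m) bs (run T i b z) := by
  rw [rb, List.flatten_cons, run_append, hb, rb]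

theorem rb_append (T : ℕ → ℂ[X]) {i m : ℕ} {bs : List (List ℂ)} (hb : ∀ b ∈ bs, b.length = m)
    (cs : List (List ℂ)) (z : ℂ) :
    rb T i (bs ++ cs) z = rb T (i + bs.length * m) cs (rb T i bs z) := by
  induction bs generalizing i z with
  | nil => simp [rb_nil]
  | cons b bs ih =>
    have h1 := hb b List.mem_cons_self
    rw [List.cons_append, rb_cons T h1, rb_cons T h1,
      ih (fun c hc => hb c (List.mem_cons_of_mem _ hc)), List.length_cons]
    congr 1
    ring

theorem PW_append {T : ℕ → ℂ[X]} {ε R Λ : ℝ} {i m : ℕ} {bs : List (List ℂ)}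
    (hb : ∀ b ∈ bs, b.length = m) (cs : List (List ℂ)) (z : ℂ) :
    PW T ε R Λ m i z (bs ++ cs) =
      PW T ε R Λ m i z bs * PW T ε R Λ m (i + bs.length * m) (rb T i bs z) cs := by
  induction bs generalizing i z with
  | nil => simp [rb_nil, PW_nil]
  | cons b bs ih =>
    have h1 := hb b List.mem_cons_self
    rw [List.cons_append, PW_cons, PW_cons, ih (fun c hc => hb c (List.mem_cons_of_mem _ hc)),
      rb_cons T h1, List.length_cons, mul_assoc]
    have h2 : i + m + bs.length * m = i + (bs.length + 1) * m := by ring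
    rw [h2]

/-- Data for blocks. -/
structure BD (T : ℕ → ℂ[X]) (ε R Λ : ℝ) (m : ℕ) (B : Finset (List ℂ)) (r₀ : ℝ) : Prop where
  dat : Dat T ε R Λ
  len : ∀ b ∈ B, b.length = m
  small : ∀ b ∈ B, ∀ s ∈ b, ‖s‖ < ε
  r0 : 0 < r₀
  r1 : r₀ * Λ ^ m ≤ 1 / 2
  contr : ∀ (i : ℕ) (z w : ℂ), ‖z‖ ≤ R + 1 →
        Bt T ε R i m z → ‖z - w‖ ≤ r₀ → ‖It T i m z - It T i m w‖ ≤ 1 / 4 * ‖z - w‖

variable {T : ℕ → ℂ[X]} {ε R Λ : ℝ} {m : ℕ} {B : Finset (List ℂ)} {r₀ : ℝ}

theorem BD.r1' (h : BD T ε R Λ m B r₀) : r₀ ≤ 1 / 2 := by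
  have h1 := h.r1
  have h2 : (1 : ℝ) ≤ Λ ^ m := one_le_pow₀ (by linarith [h.dat.hΛ])
  nlinarith [h.r0]

theorem BD.step (h : BD T ε R Λ m B r₀) {b : List ℂ} (hb : b ∈ B) {i : ℕ} {z w : ℂ}
    (hz : ‖z‖ ≤ R + 1) (hzw : ‖z - w‖ ≤ r₀) (hend : ‖run T i b z‖ ≤ R + 1) :
    ‖run T i b z - run T i b w‖ ≤ Wt T ε R Λ m i z b * ‖z - w‖ := by
  unfold Wt
  split_ifs with hc
  · obtain ⟨h1, h2⟩ := hc
    rw [h2]
    exact h.contr i z w hz h1 hzw
  · have h1 : ‖z - w‖ * Λ ^ b.length ≤ 1 := by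
      rw [h.len b hb]
      have h2 : (0 : ℝ) < Λ ^ m := by have := h.dat.hΛ; positivity
      have := h.r1
      nlinarith
    have := lip_run h.dat (h.small b hb) (i := i) h1 hend
    rwa [h.len b hb] at this

theorem BD.kill (h : BD T ε R Λ m B r₀) {b : List ℂ} (hb : b ∈ B) {i : ℕ} {z w : ℂ}
    (hz : ‖z‖ ≤ R + 1) (hzw : ‖z - w‖ ≤ r₀) (hend : R + 1 < ‖run T i b z‖) :
    R < ‖run T i b w‖ := by
  apply kill_run h.dat (h.small b hb) hz _ hend
  rw [h.len b hb]
  have h2 : (0 : ℝ) < Λ ^ m := by have := h.dat.hΛ; positivity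
  have := h.r1
  nlinarith

theorem BD.big (h : BD T ε R Λ m B r₀) {bs : List (List ℂ)} (hbs : ∀ b ∈ bs, b ∈ B) {i : ℕ} {z : ℂ}
    (hz : R ≤ ‖z‖) : ‖z‖ ≤ ‖rb T i bs z‖ := by
  apply big_run' h.dat _ hz
  intro s hs
  obtain ⟨b, hb, hsb⟩ := List.mem_flatten.1 hs
  exact h.small b (hbs b hb) s hsb

/-- The tube around an orbit. -/
theorem BD.tube (h : BD T ε R Λ m B r₀) {bs : List (List ℂ)} (hbs : ∀ b ∈ bs, b ∈ B) {i : ℕ}
    {z w : ℂ} (hzw : ‖z - w‖ ≤ r₀)
    (hsm : ∀ c₁ c₂ : List (List ℂ), bs = c₁ ++ c₂ → ‖rb T i c₁ z‖ ≤ R + 1 →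
      PW T ε R Λ m i z c₁ * ‖z - w‖ ≤ r₀) :
    (‖rb T i bs z‖ ≤ R + 1 → ‖rb T i bs z - rb T i bs w‖ ≤ PW T ε R Λ m i z bs * ‖z - w‖) ∧
    (R + 1 < ‖rb T i bs z‖ → R < ‖rb T i bs w‖) := by
  have hr1 := h.r1'
  have hR := h.dat.hR
  have hΛ := h.dat.hΛ
  induction bs generalizing i z w with
  | nil =>
    refine ⟨fun _ => by rw [PW_nil, one_mul]; exact le_rfl, fun h1 => ?_⟩
    rw [rb_nil] at h1 ⊢
    have h2 : ‖z‖ ≤ ‖w‖ + ‖z - w‖ := by
      calc ‖z‖ = ‖w + (z - w)‖ := by congr 1; ring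
        _ ≤ _ := norm_add_le _ _
    linarith
  | cons b bs ih =>
    have hbB := hbs b List.mem_cons_self
    have hlen := h.len b hbB
    have hbs' : ∀ c ∈ bs, c ∈ B := fun c hc => hbs c (List.mem_cons_of_mem _ hc)
    rw [rb_cons T hlen, rb_cons T hlen, PW_cons]
    rcases le_or_gt ‖z‖ (R + 1) with hz | hz
    · rcases le_or_gt ‖run T i b z‖ (R + 1) with hz' | hz'
      · have h1 := h.step hbB hz hzw hz'
        have hW := Wt_pos (T := T) (ε := ε) (R := R) hΛ (m := m) (i := i) (z := z) (b := b)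
        have h2 : ‖run T i b z - run T i b w‖ ≤ r₀ := by
          have h3 := hsm [b] bs (by simp) (by rw [rb_cons T hlen, rb_nil]; exact hz')
          rw [PW_cons, PW_nil, mul_one] at h3
          exact h1.trans h3
        obtain ⟨h4, h5⟩ := ih hbs' h2 (by
          intro c₁ c₂ hc hal
          have h6 := hsm (b :: c₁) c₂ (by rw [hc, List.cons_append])
            (by rw [rb_cons T hlen]; exact hal)
          rw [PW_cons] at h6
          have h7 := PW_pos (T := T) (ε := ε) (R := R) hΛ (m := m) (i := i + m)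
            (z := run T i b z) (bs := c₁)
          calc PW T ε R Λ m (i + m) (run T i b z) c₁ * ‖run T i b z - run T i b w‖
              ≤ PW T ε R Λ m (i + m) (run T i b z) c₁ * (Wt T ε R Λ m i z b * ‖z - w‖) := by
                gcongr
            _ = Wt T ε R Λ m i z b * PW T ε R Λ m (i + m) (run T i b z) c₁ * ‖z - w‖ := by ring
            _ ≤ r₀ := h6) (i := i + m)
        refine ⟨fun hal => ?_, h5⟩
        have h7 := PW_pos (T := T) (ε := ε) (R := R) hΛ (m := m) (i := i + m)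
            (z := run T i b z) (bs := bs)
        calc _ ≤ PW T ε R Λ m (i + m) (run T i b z) bs * ‖run T i b z - run T i b w‖ := h4 hal
          _ ≤ PW T ε R Λ m (i + m) (run T i b z) bs * (Wt T ε R Λ m i z b * ‖z - w‖) := by
                gcongr
          _ = _ := by ring
      · have h1 := h.kill hbB hz hzw hz'
        have h2 := h.big hbs' (i := i + m) (z := run T i b w) h1.le
        have h3 := h.big hbs' (i := i + m) (z := run T i b z) (by linarith)
        exact ⟨fun h4 => by linarith, fun _ => by linarith⟩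
    · have h1 : R < ‖w‖ := by
        have h2 : ‖z‖ ≤ ‖w‖ + ‖z - w‖ := by
          calc ‖z‖ = ‖w + (z - w)‖ := by congr 1; ring
            _ ≤ _ := norm_add_le _ _
        linarith
      have h2 := h.big hbs (i := i) (z := w) h1.le
      have h3 := h.big hbs (i := i) (z := z) (by linarith)
      rw [rb_cons T hlen] at h2 h3
      exact ⟨fun h4 => by linarith, fun _ => by linarith⟩

/-- A block sequence is good for the start `z`. -/
def Good (T : ℕ → ℂ[X]) (ε R Λ : ℝ) (m : ℕ) (Th th : ℝ) (i : ℕ) (z : ℂ) (bs : List (List ℂ)) :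
    Prop :=
  (∀ j ≤ bs.length, ‖rb T i (bs.take j) z‖ ≤ R + 1 → PW T ε R Λ m i z (bs.take j) ≤ Th) ∧
  (‖rb T i bs z‖ ≤ R + 1 → PW T ε R Λ m i z bs ≤ th)

/-- If the blocks are good for `z` then the small disc around `z` is sent outside the disc of radius
`R`, or near the end position of a point of the net, started at a block time. -/
theorem BD.dich (h : BD T ε R Λ m B r₀) {N : Finset ℂ}
    (hN : ∀ z : ℂ, ‖z‖ ≤ R + 1 → ∃ ν ∈ N, ‖z - ν‖ ≤ r₀) {bs : List (List ℂ)}
    (hbs : ∀ b ∈ bs, b ∈ B) {i : ℕ} {z : ℂ} {Th th ρ : ℝ} (hth : 0 ≤ th)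
    (hρ : ρ ≤ r₀) (hρ0 : 0 ≤ ρ) (hρ1 : Th * ρ ≤ r₀) (hg : Good T ε R Λ m Th th i z bs) :
    (∀ w : ℂ, ‖z - w‖ ≤ ρ → R < ‖rb T i bs w‖) ∨
    ∃ ν ∈ N, ∃ j ≤ bs.length, ∀ w : ℂ, ‖z - w‖ ≤ ρ →
      ‖rb T i bs w - rb T (i + j * m) (bs.drop j) ν‖ ≤ 2 * (th * r₀) := by
  have hΛ := h.dat.hΛ
  have hr0 := h.r0
  have hlen : ∀ b ∈ bs, b.length = m := fun b hb => h.len b (hbs b hb)
  have htube : ∀ w : ℂ, ‖z - w‖ ≤ ρ → _ := fun w hw => h.tube hbs (i := i) (z := z) (w := w)
    (hw.trans hρ) (by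
      intro c₁ c₂ hc hal
      have h1 : c₁ = bs.take c₁.length := by rw [hc, List.take_left']; rfl
      have h2 : c₁.length ≤ bs.length := by rw [hc, List.length_append]; omega
      have h3 := hg.1 c₁.length h2 (by rw [← h1]; exact hal)
      rw [← h1] at h3
      have h4 := PW_pos (T := T) (ε := ε) (R := R) hΛ (m := m) (i := i) (z := z) (bs := c₁)
      have hTh : 0 ≤ Th := h4.le.trans h3
      calc PW T ε R Λ m i z c₁ * ‖z - w‖ ≤ Th * ρ := by gcongr
        _ ≤ r₀ := hρ1)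
  rcases lt_or_ge (R + 1) ‖rb T i bs z‖ with hend | hend
  · left
    intro w hw
    exact (htube w hw).2 hend
  · right
    have hth1 := hg.2 hend
    -- the maximum of the products
    obtain ⟨j, hj, hmax⟩ := Finset.exists_max_image (Finset.range (bs.length + 1))
      (fun j => PW T ε R Λ m i z (bs.take j)) ⟨0, by simp⟩
    have hj' : j ≤ bs.length := by
      have := Finset.mem_range.1 hj
      omega
    have hsplit : bs = bs.take j ++ bs.drop j := (List.take_append_drop j bs).symm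
    have hlt : (bs.take j).length = j := by rw [List.length_take]; omega
    have hlenj : ∀ b ∈ bs.take j, b.length = m := fun b hb => hlen b (List.mem_of_mem_take hb)
    have hbd : ∀ b ∈ bs.drop j, b ∈ B := fun b hb => hbs b (List.mem_of_mem_drop hb)
    set y : ℂ := rb T i (bs.take j) z with hy
    have hendy : rb T i bs z = rb T (i + j * m) (bs.drop j) y := by
      conv_lhs => rw [hsplit]
      rw [rb_append T hlenj, hlt]
    have hyal : ‖y‖ ≤ R + 1 := by
      by_contra hcon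
      push Not at hcon
      have h1 := h.big hbd (i := i + j * m) (z := y) (by linarith)
      rw [← hendy] at h1
      linarith
    obtain ⟨ν, hν, hνy⟩ := hN y hyal
    have hPj : 0 < PW T ε R Λ m i z (bs.take j) := PW_pos hΛ
    have hprod : ∀ c₁ c₂ : List (List ℂ), bs.drop j = c₁ ++ c₂ →
        PW T ε R Λ m i z (bs.take j) * PW T ε R Λ m (i + j * m) y c₁ ≤
          PW T ε R Λ m i z (bs.take j) := by
      intro c₁ c₂ hc
      have h1 : bs.take (j + c₁.length) = bs.take j ++ c₁ := by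
        conv_lhs => rw [hsplit, hc, ← List.append_assoc]
        rw [List.take_left']
        rw [List.length_append, hlt]
      have h2 : j + c₁.length ∈ Finset.range (bs.length + 1) := by
        rw [Finset.mem_range]
        have h3 := congrArg List.length hc
        rw [List.length_drop, List.length_append] at h3
        omega
      have h3 := hmax _ h2
      rw [h1, PW_append hlenj, hlt] at h3
      exact h3
    have hone : ∀ c₁ c₂ : List (List ℂ), bs.drop j = c₁ ++ c₂ →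
        PW T ε R Λ m (i + j * m) y c₁ ≤ 1 := by
      intro c₁ c₂ hc
      have := hprod c₁ c₂ hc
      by_contra hcon
      push Not at hcon
      nlinarith
    have hPj1 : 1 ≤ PW T ε R Λ m i z (bs.take j) := by
      have := hmax 0 (by simp)
      simpa [PW_nil] using this
    have hlast : PW T ε R Λ m (i + j * m) y (bs.drop j) ≤ th := by
      have h1 : PW T ε R Λ m i z bs = PW T ε R Λ m i z (bs.take j) *
          PW T ε R Λ m (i + j * m) y (bs.drop j) := by
        conv_lhs => rw [hsplit]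
        rw [PW_append hlenj, hlt]
      have h2 : 0 < PW T ε R Λ m (i + j * m) y (bs.drop j) := PW_pos hΛ
      nlinarith
    obtain ⟨h5, -⟩ := h.tube hbd (i := i + j * m) (z := y) (w := ν) hνy (by
      intro c₁ c₂ hc _
      have h1 := hone c₁ c₂ hc
      have h2 := norm_nonneg (y - ν)
      nlinarith)
    have h6 := h5 (by rw [← hendy]; exact hend)
    refine ⟨ν, hν, j, hj', fun w hw => ?_⟩
    have h7 := (htube w hw).1 hend
    have h8 : ‖rb T i bs z - rb T i bs w‖ ≤ th * r₀ := by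
      refine h7.trans ?_
      have h9 : 0 < PW T ε R Λ m i z bs := PW_pos hΛ
      have h10 := norm_nonneg (z - w)
      calc PW T ε R Λ m i z bs * ‖z - w‖ ≤ th * ρ := by gcongr
        _ ≤ th * r₀ := by gcongr
    have h11 : ‖rb T (i + j * m) (bs.drop j) y - rb T (i + j * m) (bs.drop j) ν‖ ≤ th * r₀ := by
      refine h6.trans ?_
      gcongr
    rw [← hendy] at h11
    calc ‖rb T i bs w - rb T (i + j * m) (bs.drop j) ν‖
        = ‖(rb T i bs z - rb T (i + j * m) (bs.drop j) ν) - (rb T i bs z - rb T i bs w)‖ := by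
          congr 1; ring
      _ ≤ ‖rb T i bs z - rb T (i + j * m) (bs.drop j) ν‖ + ‖rb T i bs z - rb T i bs w‖ :=
          norm_sub_le _ _
      _ ≤ 2 * (th * r₀) := by linarith

end Pool.Agent.Y334.NA
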