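import Mathlib
import Pool.Agent.Y334.NA.Super

/-! The probability that a block sequence is good for a given start. -/

set_option autoImplicit false

open Filter Topology Metric Set Polynomial

namespace Pool.Agent.Y334.NA

variable {T : ℕ → ℂ[X]} {ε R Λ : ℝ} {m : ℕ} {B : Finset (List ℂ)} {r₀ : ℝ}

/-- the moment on the event of being alive -/
noncomputable def Fm (T : ℕ → ℂ[X]) (ε R Λ lam : ℝ) (m i : ℕ) (z : ℂ) (bs : List (List ℂ)) : ℝ :=
  PW T ε R Λ m i z bs ^ lam * al R (rb T i bs z)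

theorem Fm_nonneg (hΛ : 2 ≤ Λ) {lam : ℝ} {i : ℕ} {z : ℂ} {bs : List (List ℂ)} :
    0 ≤ Fm T ε R Λ lam m i z bs :=
  mul_nonneg (Real.rpow_nonneg (PW_pos hΛ).le _) (al_nonneg _ _)

theorem al_zero {z : ℂ} (h : R + 1 < ‖z‖) : al R z = 0 := by
  unfold al
  rw [if_neg (not_le.2 h)]

theorem al_one {z : ℂ} (h : ‖z‖ ≤ R + 1) : al R z = 1 := by
  unfold al
  rw [if_pos h]

/-- The moments decrease. -/
theorem moment (h : BD T ε R Λ m B r₀) {w : List ℂ → ℝ} (hw : ∀ b ∈ B, 0 ≤ w b) {lam q : ℝ}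
    (hq0 : 0 < q)
    (hq : ∀ (i : ℕ) (z : ℂ), ‖z‖ ≤ R + 1 →
        ∑ b ∈ B, w b * (Wt T ε R Λ m i z b ^ lam * al R (run T i b z)) ≤ q) (K : ℕ) :
    ∀ (i : ℕ) (z : ℂ), EX B w K (Fm T ε R Λ lam m i z) ≤ al R z * q ^ K := by
  have hΛ := h.dat.hΛ
  induction K with
  | zero =>
    intro i z
    rw [EX_zero, Fm, PW_nil, Real.one_rpow, rb_nil, pow_zero, one_mul, mul_one]
  | succ K ih =>
    intro i z
    rcases lt_or_ge (R + 1) ‖z‖ with hz | hz
    · rw [al_zero hz, zero_mul]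
      have h1 : EX B w (K + 1) (Fm T ε R Λ lam m i z) ≤ EX B w (K + 1) (fun _ => 0) := by
        apply EX_mono hw
        intro l _ hl
        have h2 := h.big hl (i := i) (z := z) (by linarith)
        rw [Fm, al_zero (by linarith), mul_zero]
      rw [EX_fzero] at h1
      exact h1
    · rw [al_one hz, one_mul, EX_succ]
      have h1 : ∀ b ∈ B, w b * EX B w K (fun l => Fm T ε R Λ lam m i z (b :: l)) ≤
          (w b * (Wt T ε R Λ m i z b ^ lam * al R (run T i b z))) * q ^ K := by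
        intro b hb
        have h2 : (fun l => Fm T ε R Λ lam m i z (b :: l)) =
            fun l => Wt T ε R Λ m i z b ^ lam * Fm T ε R Λ lam m (i + m) (run T i b z) l := by
          funext l
          rw [Fm, Fm, rb_cons T (h.len b hb), PW_cons,
            Real.mul_rpow (Wt_pos hΛ).le (PW_pos hΛ).le, mul_assoc]
        rw [h2, EX_const_mul]
        have h3 := ih (i + m) (run T i b z)
        have h4 : 0 ≤ Wt T ε R Λ m i z b ^ lam := Real.rpow_nonneg (Wt_pos hΛ).le _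
        have h5 := hw b hb
        calc w b * (Wt T ε R Λ m i z b ^ lam * EX B w K (Fm T ε R Λ lam m (i + m) (run T i b z)))
            ≤ w b * (Wt T ε R Λ m i z b ^ lam * (al R (run T i b z) * q ^ K)) := by gcongr
          _ = _ := by ring
      refine (Finset.sum_le_sum h1).trans ?_
      rw [← Finset.sum_mul, pow_succ, mul_comm (q ^ K) q]
      have := hq i z hz
      gcongr

/-- indicator of a bad event -/
noncomputable def bad (T : ℕ → ℂ[X]) (ε R Λ : ℝ) (m : ℕ) (Th th : ℝ) (i : ℕ) (z : ℂ)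
    (bs : List (List ℂ)) : ℝ :=
  open scoped Classical in if Good T ε R Λ m Th th i z bs then 0 else 1

theorem bad_nonneg {Th th : ℝ} {i : ℕ} {z : ℂ} {bs : List (List ℂ)} :
    0 ≤ bad T ε R Λ m Th th i z bs := by
  unfold bad; split_ifs <;> norm_num

theorem bad_eq {Th th : ℝ} {i : ℕ} {z : ℂ} {bs : List (List ℂ)}
    (h : bad T ε R Λ m Th th i z bs < 1) : Good T ε R Λ m Th th i z bs := by
  unfold bad at h
  split_ifs at h with hg
  · exact hg
  · exact absurd h (lt_irrefl _)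

/-- Markov's inequality. -/
theorem markov {x t lam : ℝ} (hx : 0 < x) (ht : 0 < t) (hl : 0 < lam) (h : t < x) :
    1 ≤ x ^ lam * (t ^ lam)⁻¹ := by
  have h1 : t ^ lam ≤ x ^ lam := Real.rpow_le_rpow ht.le h.le hl.le
  have h2 : 0 < t ^ lam := Real.rpow_pos_of_pos ht _
  rw [← div_eq_mul_inv, le_div_iff₀ h2, one_mul]
  exact h1

theorem prob_bad (h : BD T ε R Λ m B r₀) {w : List ℂ → ℝ} (hw : ∀ b ∈ B, 0 ≤ w b)
    (hs : ∑ b ∈ B, w b = 1) {lam q : ℝ} (hl : 0 < lam)
    (hq0 : 0 < q) (hq1 : q < 1)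
    (hq : ∀ (i : ℕ) (z : ℂ), ‖z‖ ≤ R + 1 →
        ∑ b ∈ B, w b * (Wt T ε R Λ m i z b ^ lam * al R (run T i b z)) ≤ q)
    {Th th : ℝ} (hTh : 0 < Th) (hth : 0 < th) (K i : ℕ) (z : ℂ) :
    EX B w K (bad T ε R Λ m Th th i z) ≤ (K + 1) * (Th ^ lam)⁻¹ + q ^ K * (th ^ lam)⁻¹ := by
  have hΛ := h.dat.hΛ
  have hmom := moment h hw hq0 hq
  have hTl : 0 < (Th ^ lam)⁻¹ := inv_pos.2 (Real.rpow_pos_of_pos hTh _)
  have htl : 0 < (th ^ lam)⁻¹ := inv_pos.2 (Real.rpow_pos_of_pos hth _)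
  have h1 : EX B w K (bad T ε R Λ m Th th i z) ≤
      EX B w K (fun bs => (∑ j ∈ Finset.range (K + 1),
        (Th ^ lam)⁻¹ * Fm T ε R Λ lam m i z (bs.take j)) +
        (th ^ lam)⁻¹ * Fm T ε R Λ lam m i z bs) := by
    apply EX_mono hw
    intro bs hbK _
    have hpos1 : ∀ j ∈ Finset.range (K + 1), 0 ≤
        (Th ^ lam)⁻¹ * Fm T ε R Λ lam m i z (bs.take j) :=
      fun j _ => mul_nonneg hTl.le (Fm_nonneg hΛ)
    have hpos2 : 0 ≤ (th ^ lam)⁻¹ * Fm T ε R Λ lam m i z bs := mul_nonneg htl.le (Fm_nonneg hΛ)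
    have hpos3 := Finset.sum_nonneg hpos1
    unfold bad
    split_ifs with hg
    · linarith
    · unfold Good at hg
      rw [not_and_or] at hg
      rcases hg with hg | hg
      · push Not at hg
        obtain ⟨j, hj, hal, hlt⟩ := hg
        have h2 : j ∈ Finset.range (K + 1) := by rw [Finset.mem_range]; omega
        have h3 := Finset.single_le_sum hpos1 h2
        have h4 : 1 ≤ (Th ^ lam)⁻¹ * Fm T ε R Λ lam m i z (bs.take j) := by
          rw [Fm, al_one hal, mul_one, mul_comm]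
          exact markov (PW_pos hΛ) hTh hl hlt
        linarith
      · push Not at hg
        obtain ⟨hal, hlt⟩ := hg
        have h4 : 1 ≤ (th ^ lam)⁻¹ * Fm T ε R Λ lam m i z bs := by
          rw [Fm, al_one hal, mul_one, mul_comm]
          exact markov (PW_pos hΛ) hth hl hlt
        linarith
  refine h1.trans ?_
  rw [EX_add, EX_sum, EX_const_mul]
  have h5 : ∀ j ∈ Finset.range (K + 1),
      EX B w K (fun bs => (Th ^ lam)⁻¹ * Fm T ε R Λ lam m i z (bs.take j)) ≤ (Th ^ lam)⁻¹ := by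
    intro j hj
    have hj' : j ≤ K := by
      have := Finset.mem_range.1 hj
      omega
    rw [EX_const_mul, EX_take hs hj' (Fm T ε R Λ lam m i z)]
    have h6 : EX B w j (Fm T ε R Λ lam m i z) ≤ 1 := by
      refine (hmom j i z).trans ?_
      have h7 := al_le R z
      have h8 := al_nonneg R z
      have h9 : q ^ j ≤ 1 := pow_le_one₀ hq0.le hq1.le
      have h10 : 0 ≤ q ^ j := by positivity
      nlinarith
    nlinarith
  have h11 := Finset.sum_le_sum h5
  rw [Finset.sum_const, Finset.card_range, nsmul_eq_mul] at h11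
  push_cast at h11
  have h12 : EX B w K (Fm T ε R Λ lam m i z) ≤ q ^ K := by
    refine (hmom K i z).trans ?_
    have h7 := al_le R z
    have h10 : 0 ≤ q ^ K := by positivity
    nlinarith
  have h13 : (th ^ lam)⁻¹ * EX B w K (Fm T ε R Λ lam m i z) ≤ q ^ K * (th ^ lam)⁻¹ := by
    rw [mul_comm]
    gcongr
  linarith

end Pool.Agent.Y334.NA
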