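import Mathlib
import Pool.Agent.Y334.NA.Prob
import Pool.Agent.Y334.NH.Main

/-! The choice of two block sequences, and its consequences for the critical points. -/

set_option autoImplicit false

open Filter Topology Metric Set Polynomial

namespace Pool.Agent.Y334.NA

variable {T : ℕ → ℂ[X]} {ε R Λ : ℝ} {m : ℕ} {B : Finset (List ℂ)} {r₀ : ℝ}

/-- Two block sequences which are good for finitely many starts, each depending on the other one. -/
theorem choice {w : List ℂ → ℝ} (hw : ∀ b ∈ B, 0 ≤ w b)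
    (hs : ∑ b ∈ B, w b = 1) {Th th η : ℝ} {K i₁ i₂ : ℕ}
    (hη : ∀ (i : ℕ) (z : ℂ), EX B w K (bad T ε R Λ m Th th i z) ≤ η)
    (X Y : Finset (List (List ℂ) → ℂ)) (hXY : ((X.card : ℝ) + Y.card) * η < 1) :
    ∃ φ ψ : List (List ℂ), φ.length = K ∧ ψ.length = K ∧ (∀ b ∈ φ, b ∈ B) ∧ (∀ b ∈ ψ, b ∈ B) ∧
      (∀ x ∈ X, Good T ε R Λ m Th th i₁ (x ψ) φ) ∧ (∀ y ∈ Y, Good T ε R Λ m Th th i₂ (y φ) ψ) := by
  set V : List (List ℂ) → List (List ℂ) → ℝ := fun φ ψ =>
    (∑ x ∈ X, bad T ε R Λ m Th th i₁ (x ψ) φ) + ∑ y ∈ Y, bad T ε R Λ m Th th i₂ (y φ) ψ with hV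
  have h1 : EX B w K (fun φ => EX B w K (fun ψ => V φ ψ)) < 1 := by
    have h2 : EX B w K (fun φ => EX B w K (fun ψ => V φ ψ)) =
        EX B w K (fun φ => EX B w K (fun ψ => ∑ x ∈ X, bad T ε R Λ m Th th i₁ (x ψ) φ)) +
        EX B w K (fun φ => EX B w K (fun ψ => ∑ y ∈ Y, bad T ε R Λ m Th th i₂ (y φ) ψ)) := by
      rw [← EX_add]
      congr 1
      funext φ
      rw [← EX_add]
    have h3 : EX B w K (fun φ => EX B w K (fun ψ => ∑ x ∈ X, bad T ε R Λ m Th th i₁ (x ψ) φ)) ≤
        X.card * η := by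
      rw [EX_swap]
      have h4 : ∀ ψ, EX B w K (fun φ => ∑ x ∈ X, bad T ε R Λ m Th th i₁ (x ψ) φ) ≤ X.card * η := by
        intro ψ
        rw [EX_sum, ← nsmul_eq_mul]
        apply Finset.sum_le_card_nsmul
        intro x _
        exact hη i₁ (x ψ)
      calc _ ≤ EX B w K (fun _ => X.card * η) := EX_mono hw (fun ψ _ _ => h4 ψ)
        _ = X.card * η := EX_const hs _
    have h5 : EX B w K (fun φ => EX B w K (fun ψ => ∑ y ∈ Y, bad T ε R Λ m Th th i₂ (y φ) ψ)) ≤
        Y.card * η := by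
      have h4 : ∀ φ, EX B w K (fun ψ => ∑ y ∈ Y, bad T ε R Λ m Th th i₂ (y φ) ψ) ≤ Y.card * η := by
        intro φ
        rw [EX_sum, ← nsmul_eq_mul]
        apply Finset.sum_le_card_nsmul
        intro y _
        exact hη i₂ (y φ)
      calc _ ≤ EX B w K (fun _ => Y.card * η) := EX_mono hw (fun φ _ _ => h4 φ)
        _ = Y.card * η := EX_const hs _
    rw [h2]
    linarith
  obtain ⟨φ, hφ1, hφ2, hφ3⟩ := EX_exists hw hs h1
  obtain ⟨ψ, hψ1, hψ2, hψ3⟩ := EX_exists hw hs hφ3
  have hX : ∀ x ∈ X, 0 ≤ bad T ε R Λ m Th th i₁ (x ψ) φ := fun _ _ => bad_nonneg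
  have hY : ∀ y ∈ Y, 0 ≤ bad T ε R Λ m Th th i₂ (y φ) ψ := fun _ _ => bad_nonneg
  have hX' := Finset.sum_nonneg hX
  have hY' := Finset.sum_nonneg hY
  simp only [hV] at hψ3
  refine ⟨φ, ψ, hφ1, hψ1, hφ2, hψ2, fun x hx => bad_eq ?_, fun y hy => bad_eq ?_⟩
  · have := Finset.single_le_sum hX hx
    linarith
  · have := Finset.single_le_sum hY hy
    linarith

/-- the polynomials with the kicks -/
noncomputable def pertL (T : ℕ → ℂ[X]) : ℕ → List ℂ → List ℂ[X]
  | _, [] => []
  | i, s :: l => (T i + C s) :: pertL T (i + 1) l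

theorem run_pert (T : ℕ → ℂ[X]) (i : ℕ) (l : List ℂ) (z : ℂ) :
    (NH.compAll (pertL T i l)).eval z = run T i l z := by
  induction l generalizing i z with
  | nil => simp [pertL, run, NH.eval_compAll_nil]
  | cons s l ih =>
    rw [pertL, NH.eval_compAll_cons, ih, run]
    simp

theorem pert_split (T : ℕ → ℂ[X]) {i : ℕ} {l : List ℂ} {L₁ L₂ : List ℂ[X]} {P : ℂ[X]}
    (h : pertL T i l = L₁ ++ P :: L₂) :
    L₁.length < l.length ∧ L₁ = pertL T i (l.take L₁.length) ∧ ∃ s, P = T (i + L₁.length) + C s := by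
  induction l generalizing i L₁ with
  | nil =>
    simp [pertL] at h
  | cons s l ih =>
    cases L₁ with
    | nil =>
      simp only [pertL, List.nil_append, List.cons.injEq] at h
      exact ⟨by simp, by simp [pertL], s, h.1.symm⟩
    | cons Q L₁ =>
      simp only [pertL, List.cons_append, List.cons.injEq] at h
      obtain ⟨h1, h2, s', h3⟩ := ih h.2
      refine ⟨by simpa using h1, ?_, s', ?_⟩
      · rw [List.length_cons, List.take_succ_cons, pertL, ← h2, h.1]
      · rw [h3, List.length_cons]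
        congr 2
        ring

/-- The critical points of the composition are critical points of the factors on their way. -/
theorem crit_time (T : ℕ → ℂ[X]) {l : List ℂ} {c : ℂ}
    (hc : (derivative (NH.compAll (pertL T 0 l))).eval c = 0) :
    ∃ t < l.length, (derivative (T t)).eval (run T 0 (l.take t) c) = 0 ∧
      run T 0 l c = run T t (l.drop t) (run T 0 (l.take t) c) := by
  obtain ⟨L₁, P, L₂, h1, h2⟩ := NH.crit_split _ c hc
  obtain ⟨h3, h4, s, h5⟩ := pert_split T h1
  refine ⟨L₁.length, h3, ?_, ?_⟩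
  · rw [h5, h4, run_pert] at h2
    rw [← h4] at h2
    simpa using h2
  · have h6 : (l.take L₁.length).length = L₁.length := by rw [List.length_take]; omega
    have h7 := run_append T 0 (l.take L₁.length) (l.drop L₁.length) c
    rw [List.take_append_drop, h6, zero_add] at h7
    exact h7

end Pool.Agent.Y334.NA
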