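import Mathlib
import Pool.Agent.Y334.NA.Choice

/-! The deterministic part. -/

set_option autoImplicit false

open Filter Topology Metric Set Polynomial

namespace Pool.Agent.Y334.NA

variable {T : ℕ → ℂ[X]} {ε R Λ : ℝ} {m : ℕ} {B : Finset (List ℂ)} {r₀ : ℝ}

/-- escape -/
theorem esc_of_big (h : Dat T ε R Λ) {l : List ℂ} (hl : ∀ s ∈ l, ‖s‖ < ε) (hne : l ≠ []) {z : ℂ}
    (a : ℕ) (hz : R < ‖(fun w : ℂ => (NH.compAll (pertL T 0 l)).eval w)^[a] z‖) :
    NH.Esc (NH.compAll (pertL T 0 l)) z := by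
  have hR1 := h.hR
  set f : ℂ → ℂ := fun w : ℂ => (NH.compAll (pertL T 0 l)).eval w with hf
  have h1 : ∀ k : ℕ, R < ‖f^[k] (f^[a] z)‖ ∧ 2 ^ k * R ≤ ‖f^[k] (f^[a] z)‖ := by
    intro k
    induction k with
    | zero => exact ⟨hz, by simpa using hz.le⟩
    | succ k ih =>
      rw [Function.iterate_succ_apply']
      have h2 : 2 * ‖f^[k] (f^[a] z)‖ ≤ ‖f (f^[k] (f^[a] z))‖ := by
        have h3 := big_run h hl (i := 0) ih.1.le
        have h4 : (2 : ℝ) ^ 1 ≤ 2 ^ l.length :=
          pow_le_pow_right₀ (by norm_num) (List.length_pos_iff.2 hne)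
        rw [← run_pert] at h3
        have h5 := norm_nonneg (f^[k] (f^[a] z))
        have h6 : 2 ^ l.length * ‖f^[k] (f^[a] z)‖ ≤ ‖f (f^[k] (f^[a] z))‖ := h3
        nlinarith
      constructor
      · have := ih.1; linarith
      · rw [pow_succ]; nlinarith [ih.2]
  have h2 : Tendsto (fun k : ℕ => (2 : ℝ) ^ k * R) atTop atTop :=
    (tendsto_pow_atTop_atTop_of_one_lt one_lt_two).atTop_mul_const (by linarith)
  have h3 : Tendsto (fun k : ℕ => ‖f^[k] (f^[a] z)‖) atTop atTop :=
    tendsto_atTop_mono (fun k => (h1 k).2) h2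
  have h4 : Tendsto (fun k : ℕ => ‖f^[k + a] z‖) atTop atTop := by
    refine h3.congr fun k => ?_
    rw [Function.iterate_add_apply]
  exact (tendsto_add_atTop_iff_nat (f := fun k : ℕ => ‖f^[k] z‖) a).1 h4

theorem det (h : BD T ε R Λ m B r₀) {N : Finset ℂ}
    (hN : ∀ z : ℂ, ‖z‖ ≤ R + 1 → ∃ ν ∈ N, ‖z - ν‖ ≤ r₀) {K r : ℕ} (hK : 1 ≤ K) (hm1 : 1 ≤ m)
    {φ ψ : List (List ℂ)}
    (hφK : φ.length = K) (hψK : ψ.length = K) (hφB : ∀ b ∈ φ, b ∈ B) (hψB : ∀ b ∈ ψ, b ∈ B)
    {Th th ρ ρ2 : ℝ} (hth : 0 < th) (hρ : 0 < ρ) (hρ0 : ρ ≤ r₀) (hρ1 : Th * ρ ≤ r₀)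
    (hρ2 : 0 < ρ2) (hρ3 : ρ2 * Λ ^ r ≤ ρ) (hδ : 12 * (th * r₀) ≤ ρ2)
    (good1 : ∀ ν ∈ N, ∀ j ≤ K, Good T ε R Λ m Th th r
      (It T 0 r (rb T (r + K * m + j * m) (ψ.drop j) ν)) φ)
    (good2 : ∀ ν ∈ N, ∀ j ≤ K, Good T ε R Λ m Th th (r + K * m) (rb T (r + j * m) (φ.drop j) ν) ψ)
    (good3 : ∀ t < r, ∀ w, (derivative (T t)).eval w = 0 →
      Good T ε R Λ m Th th r (It T t (r - t) w) φ)
    (good4 : ∀ t < K * m, ∀ w, (derivative (T (r + t))).eval w = 0 →
      Good T ε R Λ m Th th (r + K * m) (run T (r + t) (φ.flatten.drop t) w) ψ)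
    (good5 : ∀ t < K * m, ∀ w, (derivative (T (r + K * m + t))).eval w = 0 →
      Good T ε R Λ m Th th r (It T 0 r (run T (r + K * m + t) (ψ.flatten.drop t) w)) φ)
    (c : ℂ) (hc : (derivative (NH.compAll (pertL T 0
      (List.replicate r 0 ++ (φ.flatten ++ ψ.flatten))))).eval c = 0) :
    NH.Esc (NH.compAll (pertL T 0 (List.replicate r 0 ++ (φ.flatten ++ ψ.flatten)))) c ∨
    NH.Att (NH.compAll (pertL T 0 (List.replicate r 0 ++ (φ.flatten ++ ψ.flatten)))) c := by
  have hΛ := h.dat.hΛ
  have hR := h.dat.hR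
  have hr0 := h.r0
  have hr1 := h.r1'
  have hε := h.dat.hε
  have hthr : 0 < th * r₀ := by positivity
  have hΛr : (1 : ℝ) ≤ Λ ^ r := one_le_pow₀ (by linarith)
  have hρ21 : ρ2 ≤ ρ := by nlinarith
  have hflen : ∀ (bs : List (List ℂ)), (∀ b ∈ bs, b ∈ B) → bs.flatten.length = bs.length * m := by
    intro bs hbs
    induction bs with
    | nil => simp
    | cons b bs ih =>
      rw [List.flatten_cons, List.length_append, ih (fun c hc => hbs c (List.mem_cons_of_mem _ hc)),
        h.len b (hbs b List.mem_cons_self), List.length_cons]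
      ring
  have hφl : φ.flatten.length = K * m := by rw [hflen φ hφB, hφK]
  have hψl : ψ.flatten.length = K * m := by rw [hflen ψ hψB, hψK]
  set l : List ℂ := List.replicate r 0 ++ (φ.flatten ++ ψ.flatten) with hl
  have hsm0 : ∀ k : ℕ, ∀ s ∈ List.replicate k (0 : ℂ), ‖s‖ < ε := by
    intro k s hs
    rw [(List.mem_replicate.1 hs).2]
    simpa using hε
  have hsmf : ∀ bs : List (List ℂ), (∀ b ∈ bs, b ∈ B) → ∀ s ∈ bs.flatten, ‖s‖ < ε := by
    intro bs hbs s hs
    obtain ⟨b, hb, hsb⟩ := List.mem_flatten.1 hs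
    exact h.small b (hbs b hb) s hsb
  have hlsm : ∀ s ∈ l, ‖s‖ < ε := by
    intro s hs
    rcases List.mem_append.1 hs with hs | hs
    · exact hsm0 r s hs
    · rcases List.mem_append.1 hs with hs | hs
      · exact hsmf φ hφB s hs
      · exact hsmf ψ hψB s hs
  have hllen : l.length = r + (K * m + K * m) := by
    rw [hl, List.length_append, List.length_append, List.length_replicate, hφl, hψl]
  have hne : l ≠ [] := by
    rw [← List.length_pos_iff, hllen]
    have : 1 ≤ K * m := Nat.mul_pos hK hm1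
    omega
  set F : ℂ → ℂ := fun z => run T 0 l z with hF
  have hFeq : (fun w : ℂ => (NH.compAll (pertL T 0 l)).eval w) = F := by
    funext z
    exact run_pert T 0 l z
  have hFrb : ∀ z, F z = rb T (r + K * m) ψ (rb T r φ (It T 0 r z)) := by
    intro z
    simp only [hF, hl]
    rw [run_append, run_append, List.length_replicate, zero_add, hφl]
    rfl
  have hbigF : ∀ z, R < ‖z‖ → R < ‖F z‖ := by
    intro z hz
    have := big_run' h.dat hlsm (i := 0) hz.le
    simp only [hF]
    linarith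
  set A : Set ℂ := {a | ∃ ν ∈ N, ∃ j ≤ K, a = rb T (r + K * m + j * m) (ψ.drop j) ν} with hA
  -- good for the second sequence
  have key1 : ∀ z, Good T ε R Λ m Th th (r + K * m) z ψ →
      (∀ w, ‖z - w‖ ≤ ρ → R < ‖rb T (r + K * m) ψ w‖) ∨
      ∃ a ∈ A, ∀ w, ‖z - w‖ ≤ ρ → ‖rb T (r + K * m) ψ w - a‖ ≤ 2 * (th * r₀) := by
    intro z hz
    rcases h.dich hN hψB hth.le hρ0 hρ.le hρ1 hz with h1 | ⟨ν, hν, j, hj, h1⟩
    · exact Or.inl h1
    · exact Or.inr ⟨_, ⟨ν, hν, j, by omega, rfl⟩, h1⟩
  have key2 : ∀ z, Good T ε R Λ m Th th r z φ →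
      (∀ w, ‖z - w‖ ≤ ρ → R < ‖rb T (r + K * m) ψ (rb T r φ w)‖) ∨
      ∃ a ∈ A, ∀ w, ‖z - w‖ ≤ ρ → ‖rb T (r + K * m) ψ (rb T r φ w) - a‖ ≤ 2 * (th * r₀) := by
    intro z hz
    rcases h.dich hN hφB hth.le hρ0 hρ.le hρ1 hz with h1 | ⟨ν, hν, j, hj, h1⟩
    · left
      intro w hw
      have h2 := h1 w hw
      have h3 := h.big hψB (i := r + K * m) h2.le
      linarith
    · rcases key1 _ (good2 ν hν j (by omega)) with h2 | ⟨a, ha, h2⟩
      · left
        intro w hw
        apply h2
        rw [norm_sub_rev]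
        have := h1 w hw
        linarith
      · right
        refine ⟨a, ha, fun w hw => ?_⟩
        apply h2
        rw [norm_sub_rev]
        have := h1 w hw
        linarith
  -- one turn
  have key3 : ∀ a ∈ A, (∀ w, ‖a - w‖ ≤ ρ2 → R < ‖F w‖) ∨
      ∃ a' ∈ A, ∀ w, ‖a - w‖ ≤ ρ2 → ‖F w - a'‖ ≤ 2 * (th * r₀) := by
    rintro a ⟨ν, hν, j, hj, rfl⟩
    set a : ℂ := rb T (r + K * m + j * m) (ψ.drop j) ν with ha
    have hbig2 : ∀ y, R < ‖y‖ → R < ‖rb T (r + K * m) ψ (rb T r φ y)‖ := by
      intro y hy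
      have h3 := h.big hφB (i := r) hy.le
      have h4 := h.big hψB (i := r + K * m) (z := rb T r φ y) (by linarith)
      linarith
    rcases lt_or_ge (R + 1) ‖a‖ with ha1 | ha1
    · left
      intro w hw
      apply hbigF
      have h2 : ‖a‖ ≤ ‖w‖ + ‖a - w‖ := by
        calc ‖a‖ = ‖w + (a - w)‖ := by congr 1; ring
          _ ≤ _ := norm_add_le _ _
      linarith
    · rcases lt_or_ge (R + 1) ‖It T 0 r a‖ with ha2 | ha2
      · left
        intro w hw
        rw [hFrb]
        apply hbig2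
        apply kill_run h.dat (hsm0 r) (i := 0) ha1 _ ha2
        rw [List.length_replicate]
        calc ‖a - w‖ * Λ ^ r ≤ ρ2 * Λ ^ r := by gcongr
          _ ≤ 1 / 2 := by linarith
      · have hlip : ∀ w, ‖a - w‖ ≤ ρ2 → ‖It T 0 r a - It T 0 r w‖ ≤ ρ := by
          intro w hw
          have h3 : ‖a - w‖ * Λ ^ r ≤ ρ2 * Λ ^ r := by gcongr
          have h4 := lip_run h.dat (hsm0 r) (i := 0) (z := a) (w := w) (by
            rw [List.length_replicate]; linarith) ha2
          rw [List.length_replicate] at h4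
          calc ‖It T 0 r a - It T 0 r w‖ ≤ Λ ^ r * ‖a - w‖ := h4
            _ ≤ ρ := by linarith
        rcases key2 _ (good1 ν hν j hj) with h2 | ⟨a', ha', h2⟩
        · left
          intro w hw
          rw [hFrb]
          exact h2 _ (hlip w hw)
        · right
          refine ⟨a', ha', fun w hw => ?_⟩
          rw [hFrb]
          exact h2 _ (hlip w hw)
  -- near the places
  set P : ℂ → Prop := fun x => R < ‖x‖ ∨ ∃ a ∈ A, ‖x - a‖ ≤ 2 * (th * r₀) with hP
  have hPF : ∀ x, P x → P (F x) := by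
    rintro x (hx | ⟨a, ha, hx⟩)
    · exact Or.inl (hbigF x hx)
    · have h1 : ‖a - x‖ ≤ ρ2 := by rw [norm_sub_rev]; linarith
      rcases key3 a ha with h2 | ⟨a', ha', h2⟩
      · exact Or.inl (h2 x h1)
      · exact Or.inr ⟨a', ha', h2 x h1⟩
  have hP2 : P (F^[2] c) := by
    obtain ⟨t, ht, hu1, hu2⟩ := crit_time T hc
    set u : ℂ := run T 0 (l.take t) c with hu
    have hFc : F c = run T t (l.drop t) u := hu2
    show P (F (F c))
    rcases lt_or_ge t r with h1 | h1
    · apply hPF
      have h2 : l.drop t = List.replicate (r - t) 0 ++ (φ.flatten ++ ψ.flatten) := by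
        rw [hl, List.drop_append_of_le_length (by rw [List.length_replicate]; omega),
          List.drop_replicate]
      have h3 : F c = rb T (r + K * m) ψ (rb T r φ (It T t (r - t) u)) := by
        rw [hFc, h2, run_append, run_append, List.length_replicate, hφl]
        have h4 : t + (r - t) = r := by omega
        rw [h4]
        rfl
      rw [h3]
      rcases key2 _ (good3 t h1 u hu1) with h4 | ⟨a, ha, h4⟩
      · exact Or.inl (h4 _ (by simpa using hρ.le))
      · exact Or.inr ⟨a, ha, h4 _ (by simpa using hρ.le)⟩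
    · obtain ⟨t', rfl⟩ : ∃ t', t = r + t' := ⟨t - r, by omega⟩
      rcases lt_or_ge t' (K * m) with h2 | h2
      · apply hPF
        have h3 : l.drop (r + t') = φ.flatten.drop t' ++ ψ.flatten := by
          have e1 : r + t' - r = t' := by omega
          rw [hl, List.drop_append, List.length_replicate, e1,
            List.drop_eq_nil_of_le (by rw [List.length_replicate]; omega), List.nil_append,
            List.drop_append_of_le_length (by omega)]
        have h4 : F c = rb T (r + K * m) ψ (run T (r + t') (φ.flatten.drop t') u) := by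
          rw [hFc, h3, run_append, List.length_drop, hφl]
          have h6 : r + t' + (K * m - t') = r + K * m := by omega
          rw [h6]
          rfl
        rw [h4]
        rcases key1 _ (good4 t' h2 u hu1) with h5 | ⟨a, ha, h5⟩
        · exact Or.inl (h5 _ (by simpa using hρ.le))
        · exact Or.inr ⟨a, ha, h5 _ (by simpa using hρ.le)⟩
      · obtain ⟨t'', rfl⟩ : ∃ t'', t' = K * m + t'' := ⟨t' - K * m, by omega⟩
        have h3 : t'' < K * m := by omega
        have h4 : l.drop (r + (K * m + t'')) = ψ.flatten.drop t'' := by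
          rw [hl, List.drop_append, List.drop_append, hφl, List.length_replicate]
          have e1 : r + (K * m + t'') - r = K * m + t'' := by omega
          have e2 : K * m + t'' - K * m = t'' := by omega
          rw [e1, e2, List.drop_eq_nil_of_le (by rw [List.length_replicate]; omega),
            List.drop_eq_nil_of_le (by omega)]
          simp
        have h5 : F c = run T (r + K * m + t'') (ψ.flatten.drop t'') u := by
          rw [hFc, h4, add_assoc]
        have hu1' : (derivative (T (r + K * m + t''))).eval u = 0 := by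
          rw [add_assoc]; exact hu1
        rw [hFrb, h5]
        rcases key2 _ (good5 t'' h3 u hu1') with h6 | ⟨a, ha, h6⟩
        · exact Or.inl (h6 _ (by simpa using hρ.le))
        · exact Or.inr ⟨a, ha, h6 _ (by simpa using hρ.le)⟩
  by_cases hesc : ∃ k : ℕ, R < ‖F^[k] c‖
  · left
    obtain ⟨k, hk⟩ := hesc
    apply esc_of_big h.dat hlsm hne k
    rw [hFeq]
    exact hk
  · right
    push Not at hesc
    have hPk : ∀ k : ℕ, P (F^[k + 2] c) := by
      intro k
      induction k with
      | zero => simpa using hP2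
      | succ k ih =>
        have : F^[k + 1 + 2] c = F (F^[k + 2] c) := by
          rw [← Function.iterate_succ_apply' F]
        rw [this]
        exact hPF _ ih
    have hAk : ∀ k : ℕ, ∃ a ∈ A, ‖F^[k + 2] c - a‖ ≤ 2 * (th * r₀) := by
      intro k
      rcases hPk k with h1 | h1
      · exact absurd h1 (not_lt.2 (hesc _))
      · exact h1
    choose a ha1 ha2 using hAk
    set Bs : Set ℂ := ⋃ k : ℕ, closedBall (a k) ρ2 with hBs
    have hFd : Differentiable ℂ F := by
      rw [← hFeq]
      exact (NH.compAll (pertL T 0 l)).differentiable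
    have hbound : ∀ z ∈ Bs, ‖z‖ ≤ R + 1 := by
      intro z hz
      obtain ⟨k, hk⟩ := mem_iUnion.1 hz
      rw [mem_closedBall, dist_eq_norm] at hk
      have h1 := hesc (k + 2)
      have h2 := ha2 k
      have h3 : z = (z - a k) - (F^[k + 2] c - a k) + F^[k + 2] c := by ring
      have h4 : ‖z‖ ≤ ‖z - a k‖ + ‖F^[k + 2] c - a k‖ + ‖F^[k + 2] c‖ := by
        conv_lhs => rw [h3]
        exact (norm_add_le _ _).trans (add_le_add (norm_sub_le _ _) le_rfl)
      linarith
    have hmargin : ∀ z ∈ Bs, ball (F z) (ρ2 / 2) ⊆ Bs := by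
      intro z hz
      obtain ⟨k, hk⟩ := mem_iUnion.1 hz
      rw [mem_closedBall, dist_eq_norm, norm_sub_rev] at hk
      have hc1 : ‖a k - F^[k + 2] c‖ ≤ ρ2 := by
        rw [norm_sub_rev]
        have := ha2 k
        linarith
      rcases key3 (a k) (ha1 k) with h1 | ⟨a', ha', h1⟩
      · exfalso
        have h2 := h1 _ hc1
        rw [← Function.iterate_succ_apply' F] at h2
        exact absurd h2 (not_lt.2 (hesc _))
      · have h2 := h1 _ hc1
        have h3 := h1 _ hk
        have h4 := ha2 (k + 1)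
        have h5 : F^[k + 1 + 2] c = F (F^[k + 2] c) := by
          rw [← Function.iterate_succ_apply' F]
        rw [h5] at h4
        intro x hx
        rw [mem_ball, dist_eq_norm] at hx
        refine mem_iUnion.2 ⟨k + 1, ?_⟩
        rw [mem_closedBall, dist_eq_norm]
        have h6 : x - a (k + 1) = (x - F z) + ((F z - a') - ((F (F^[k + 2] c) - a') -
            (F (F^[k + 2] c) - a (k + 1)))) := by ring
        rw [h6]
        have h7 := norm_add_le (x - F z) ((F z - a') - ((F (F^[k + 2] c) - a') -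
            (F (F^[k + 2] c) - a (k + 1))))
        have h8 := norm_sub_le (F z - a') ((F (F^[k + 2] c) - a') -
            (F (F^[k + 2] c) - a (k + 1)))
        have h9 := norm_sub_le (F (F^[k + 2] c) - a') (F (F^[k + 2] c) - a (k + 1))
        linarith
    have hstart : F^[2] c ∈ Bs := by
      refine mem_iUnion.2 ⟨0, ?_⟩
      rw [mem_closedBall, dist_eq_norm]
      have := ha2 0
      rw [zero_add] at this
      linarith
    have := NH.attracted hFd (B := Bs) (R := R + 1) (η := ρ2 / 2) (by positivity) hbound hmargin 2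
      hstart
    unfold NH.Att
    rw [hFeq]
    exact this

end Pool.Agent.Y334.NA
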