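import Mathlib
import Pool.Agent.Y334.NA.Det

/-! Small kicks make long compositions hyperbolic, uniformly over compact families. -/

set_option autoImplicit false

open Filter Topology Metric Set Polynomial

namespace Pool.Agent.Y334.NA

/-- many blocks are enough -/
theorem exists_K (C₀ C₁ x Y : ℝ) (hx0 : 0 < x) (hx1 : x < 1) (hY : 1 < Y) (hC₀ : 0 ≤ C₀) :
    ∃ K₀ : ℕ, 1 ≤ K₀ ∧ ∀ K ≥ K₀, C₀ * (K + 1) * ((K + 2) * x ^ K) < 1 ∧ C₁ ≤ Y ^ K := by
  have h1 := tendsto_pow_const_mul_const_pow_of_abs_lt_one 2 (r := x)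
    (by rw [abs_of_pos hx0]; exact hx1)
  have h2 : Tendsto (fun n : ℕ => (C₀ * 6) * ((n : ℝ) ^ 2 * x ^ n)) atTop (𝓝 ((C₀ * 6) * 0)) :=
    h1.const_mul _
  rw [mul_zero] at h2
  obtain ⟨a, ha⟩ := eventually_atTop.1 (h2.eventually (gt_mem_nhds (zero_lt_one)))
  obtain ⟨b, hb⟩ := eventually_atTop.1
    ((tendsto_pow_atTop_atTop_of_one_lt hY).eventually (eventually_ge_atTop C₁))
  refine ⟨a + b + 1, by omega, fun K hK => ⟨?_, hb K (by omega)⟩⟩
  have h3 := ha K (by omega)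
  have h4 : (1 : ℝ) ≤ K := by exact_mod_cast (by omega : 1 ≤ K)
  refine lt_of_le_of_lt ?_ h3
  have h5 : ((K : ℝ) + 1) * (K + 2) ≤ 6 * K ^ 2 := by nlinarith
  have h6 : 0 ≤ C₀ * x ^ K := by positivity
  calc C₀ * (K + 1) * ((K + 2) * x ^ K) = (C₀ * x ^ K) * ((K + 1) * (K + 2)) := by ring
    _ ≤ (C₀ * x ^ K) * (6 * K ^ 2) := by gcongr
    _ = _ := by ring

theorem main_dat {ε R Λ : ℝ} (hR : 1 ≤ R) (hΛ : 2 ≤ Λ) (hε : 0 < ε) (D : ℕ) :
    ∃ S : Finset ℂ, (∀ s ∈ S, ‖s‖ < ε) ∧ ∃ n₀ : ℕ, ∀ n ≥ n₀, ∀ T : ℕ → ℂ[X], Dat T ε R Λ →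
      (∀ i, 2 ≤ (T i).natDegree ∧ (T i).natDegree ≤ D) →
      ∃ l : List ℂ, l.length = n ∧ (∀ s ∈ l, s ∈ S) ∧
        ∀ c : ℂ, (derivative (NH.compAll (pertL T 0 l))).eval c = 0 →
          NH.Esc (NH.compAll (pertL T 0 l)) c ∨ NH.Att (NH.compAll (pertL T 0 l)) c := by
  classical
  obtain ⟨S, m, B, w, lam, q, ⟨hS0, hS1⟩, hm1, hlam, hq0, hq1, hB', hw, hs, hcontr, hq⟩ :=
    block_data hR hΛ hε
  have hB : ∀ b ∈ B, b.length = m ∧ ∀ s ∈ b, ‖s‖ < ε :=
    fun b hb => ⟨(hB' b hb).1, fun s hs => hS1 s ((hB' b hb).2 s hs)⟩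
  refine ⟨S, hS1, ?_⟩
  have hLm : (1 : ℝ) ≤ Λ ^ m := one_le_pow₀ (by linarith)
  set r₀ : ℝ := min (ε / (8 * Λ)) (1 / (2 * Λ ^ m)) with hr₀
  have hr0 : 0 < r₀ := by rw [hr₀]; positivity
  have hr1 : r₀ * Λ ^ m ≤ 1 / 2 := by
    calc r₀ * Λ ^ m ≤ 1 / (2 * Λ ^ m) * Λ ^ m := by
          gcongr; exact min_le_right _ _
      _ = 1 / 2 := by field_simp
  -- the net
  obtain ⟨t, hts, htf, htc⟩ := Metric.finite_approx_of_totallyBounded
    (isCompact_closedBall (0 : ℂ) (R + 1)).totallyBounded r₀ hr0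
  set N : Finset ℂ := htf.toFinset with hNdef
  have hN : ∀ z : ℂ, ‖z‖ ≤ R + 1 → ∃ ν ∈ N, ‖z - ν‖ ≤ r₀ := by
    intro z hz
    have h1 : z ∈ closedBall (0 : ℂ) (R + 1) := by rwa [mem_closedBall_zero_iff]
    obtain ⟨σ, hσ, h2⟩ := mem_iUnion₂.1 (htc h1)
    refine ⟨σ, htf.mem_toFinset.2 hσ, ?_⟩
    have h3 : dist z σ < r₀ := h2
    rw [dist_eq_norm] at h3
    exact h3.le
  -- the rates
  set x : ℝ := q ^ ((1 : ℝ) / 4) with hx
  have hx0 : 0 < x := Real.rpow_pos_of_pos hq0 _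
  have hx1 : x < 1 := Real.rpow_lt_one hq0.le hq1 (by norm_num)
  have hx4 : x ^ 4 = q := by
    rw [hx, ← Real.rpow_natCast, ← Real.rpow_mul hq0.le]
    norm_num
  set Y : ℝ := x⁻¹ ^ (1 / lam) with hY
  have hxi : 1 < x⁻¹ := (one_lt_inv₀ hx0).2 hx1
  have hY1 : 1 < Y := Real.one_lt_rpow hxi (by positivity)
  have hYl : Y ^ lam = x⁻¹ := by
    rw [hY, ← Real.rpow_mul (by positivity), one_div, inv_mul_cancel₀ hlam.ne', Real.rpow_one]
  have hY0 : 0 < Y := by linarith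
  obtain ⟨K₀, hK₀, hK⟩ := exists_K (2 * N.card + 2 * m * D) (12 * Λ ^ (2 * m)) x Y hx0 hx1 hY1
    (by positivity)
  refine ⟨2 * m * K₀, fun n hn T h hdeg => ?_⟩
  have h2m : 0 < 2 * m := by omega
  obtain ⟨K, hKd⟩ : ∃ K, K = n / (2 * m) := ⟨_, rfl⟩
  obtain ⟨r, hrd⟩ : ∃ r, r = n % (2 * m) := ⟨_, rfl⟩
  have hr : r < 2 * m := by rw [hrd]; exact Nat.mod_lt _ h2m
  have hnKr : n = r + (K * m + K * m) := by
    have := Nat.div_add_mod n (2 * m)
    rw [← hKd, ← hrd] at this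
    rw [← this]
    ring
  have hKK : K₀ ≤ K := by
    rw [hKd, Nat.le_div_iff_mul_le h2m]
    linarith
  obtain ⟨hK1, hK2⟩ := hK K hKK
  have hK1' : 1 ≤ K := by omega
  have hBD : BD T ε R Λ m B r₀ := by
    refine ⟨h, fun b hb => (hB b hb).1, fun b hb => (hB b hb).2, hr0, hr1, ?_⟩
    intro i z w' h1 h2 h3
    exact hcontr T h i z w' h1 h2 (h3.trans (min_le_left _ _))
  set Th : ℝ := Y ^ K with hTh
  have hTh0 : 0 < Th := by positivity
  have hTh1 : 1 ≤ Th := one_le_pow₀ hY1.le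
  set th : ℝ := (Th⁻¹) ^ 2 with hth
  have hth0 : 0 < th := by positivity
  set ρ : ℝ := r₀ / Th with hρ
  have hρ0 : 0 < ρ := by positivity
  set ρ2 : ℝ := ρ / Λ ^ (2 * m) with hρ2
  have hρ20 : 0 < ρ2 := by positivity
  -- the probability
  set η : ℝ := (K + 2) * x ^ K with hη
  have hThl : (Th ^ lam)⁻¹ = x ^ K := by
    rw [hTh, ← Real.rpow_natCast, ← Real.rpow_mul hY0.le, mul_comm, Real.rpow_mul hY0.le, hYl,
      Real.rpow_natCast, ← inv_pow, inv_inv]
  have hthl : q ^ K * (th ^ lam)⁻¹ ≤ x ^ K := by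
    have h1 : th ^ lam = (x ^ K) ^ 2 := by
      rw [hth, ← Real.rpow_natCast, ← Real.rpow_mul (by positivity), mul_comm,
        Real.rpow_mul (by positivity), Real.inv_rpow hTh0.le, hThl, Real.rpow_natCast]
    rw [h1, ← hx4]
    have h2 : 0 < x ^ K := by positivity
    have h3 : x ^ K ≤ 1 := pow_le_one₀ hx0.le hx1.le
    have h4 : (x ^ 4) ^ K = (x ^ K) ^ 4 := by rw [← pow_mul, ← pow_mul, mul_comm]
    rw [h4]
    have h5 : (x ^ K) ^ 4 * ((x ^ K) ^ 2)⁻¹ = (x ^ K) ^ 2 := by field_simp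
    rw [h5]
    nlinarith
  have hprob : ∀ (i : ℕ) (z : ℂ), EX B w K (bad T ε R Λ m Th th i z) ≤ η := by
    intro i z
    refine (prob_bad hBD hw hs hlam hq0 hq1 (fun i z hz => hq T h i z hz) hTh0 hth0 K i z).trans ?_
    rw [hThl, hη]
    linarith
  -- the critical points of the factors
  set Cr : ℕ → Finset ℂ := fun t => (derivative (T t)).roots.toFinset with hCr
  have hdT : ∀ t, derivative (T t) ≠ 0 := by
    intro t h1
    have := derivative_eq_zero.1 h1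
    have := (hdeg t).1
    omega
  have hCrc : ∀ t, (Cr t).card ≤ D := by
    intro t
    calc (Cr t).card ≤ Multiset.card (derivative (T t)).roots := Multiset.toFinset_card_le _
      _ ≤ (derivative (T t)).natDegree := card_roots' _
      _ ≤ (T t).natDegree - 1 := natDegree_derivative_le _
      _ ≤ D := by have := (hdeg t).2; omega
  have hCrm : ∀ t w', (derivative (T t)).eval w' = 0 → w' ∈ Cr t := by
    intro t w' hw'
    rw [hCr]
    simp only [Multiset.mem_toFinset]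
    rw [mem_roots (hdT t)]
    exact hw'
  -- the finite sets of starts
  set X₁ : Finset (List (List ℂ) → ℂ) := (N ×ˢ Finset.range (K + 1)).image
    (fun p ψ => It T 0 r (rb T (r + K * m + p.2 * m) (ψ.drop p.2) p.1)) with hX₁
  set X₂ : Finset (List (List ℂ) → ℂ) := (Finset.range r).biUnion
    (fun t => (Cr t).image (fun w' _ => It T t (r - t) w')) with hX₂
  set X₃ : Finset (List (List ℂ) → ℂ) := (Finset.range (K * m)).biUnion
    (fun t => (Cr (r + K * m + t)).image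
      (fun w' ψ => It T 0 r (run T (r + K * m + t) (ψ.flatten.drop t) w'))) with hX₃
  set Y₁ : Finset (List (List ℂ) → ℂ) := (N ×ˢ Finset.range (K + 1)).image
    (fun p φ => rb T (r + p.2 * m) (φ.drop p.2) p.1) with hY₁
  set Y₂ : Finset (List (List ℂ) → ℂ) := (Finset.range (K * m)).biUnion
    (fun t => (Cr (r + t)).image
      (fun w' φ => run T (r + t) (φ.flatten.drop t) w')) with hY₂
  have cX₁ : X₁.card ≤ N.card * (K + 1) := by
    refine Finset.card_image_le.trans ?_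
    rw [Finset.card_product, Finset.card_range]
  have cX₂ : X₂.card ≤ r * D := by
    refine Finset.card_biUnion_le.trans ?_
    refine (Finset.sum_le_card_nsmul _ _ D (fun t _ => Finset.card_image_le.trans (hCrc t))).trans ?_
    rw [Finset.card_range, smul_eq_mul]
  have cX₃ : X₃.card ≤ K * m * D := by
    refine Finset.card_biUnion_le.trans ?_
    refine (Finset.sum_le_card_nsmul _ _ D (fun t _ => Finset.card_image_le.trans (hCrc _))).trans ?_
    rw [Finset.card_range, smul_eq_mul]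
  have cY₁ : Y₁.card ≤ N.card * (K + 1) := by
    refine Finset.card_image_le.trans ?_
    rw [Finset.card_product, Finset.card_range]
  have cY₂ : Y₂.card ≤ K * m * D := by
    refine Finset.card_biUnion_le.trans ?_
    refine (Finset.sum_le_card_nsmul _ _ D (fun t _ => Finset.card_image_le.trans (hCrc _))).trans ?_
    rw [Finset.card_range, smul_eq_mul]
  have cX : (X₁ ∪ X₂ ∪ X₃).card ≤ N.card * (K + 1) + r * D + K * m * D := by
    have h1 := Finset.card_union_le (X₁ ∪ X₂) X₃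
    have h2 := Finset.card_union_le X₁ X₂
    omega
  have cY : (Y₁ ∪ Y₂).card ≤ N.card * (K + 1) + K * m * D := by
    have h1 := Finset.card_union_le Y₁ Y₂
    omega
  have hcount : (((X₁ ∪ X₂ ∪ X₃).card : ℝ) + (Y₁ ∪ Y₂).card) * η < 1 := by
    have h1 : (X₁ ∪ X₂ ∪ X₃).card + (Y₁ ∪ Y₂).card ≤ (2 * N.card + 2 * m * D) * (K + 1) := by
      have h2 : r * D ≤ 2 * m * D := Nat.mul_le_mul_right _ hr.le
      nlinarith
    have h2 : ((X₁ ∪ X₂ ∪ X₃).card : ℝ) + (Y₁ ∪ Y₂).card ≤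
        (2 * N.card + 2 * m * D) * (K + 1) := by exact_mod_cast h1
    have h3 : 0 ≤ η := by positivity
    exact (mul_le_mul_of_nonneg_right h2 h3).trans_lt hK1
  obtain ⟨φ, ψ, hφK, hψK, hφB, hψB, hgX, hgY⟩ := choice (T := T) (ε := ε) (R := R) (Λ := Λ) (m := m)
    hw hs (i₁ := r) (i₂ := r + K * m) hprob (X₁ ∪ X₂ ∪ X₃) (Y₁ ∪ Y₂) hcount
  refine ⟨List.replicate r 0 ++ (φ.flatten ++ ψ.flatten), ?_, ?_, ?_⟩
  · have hflen : ∀ (bs : List (List ℂ)), (∀ b ∈ bs, b ∈ B) → bs.flatten.length = bs.length * m := by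
      intro bs hbs
      induction bs with
      | nil => simp
      | cons b bs ih =>
        rw [List.flatten_cons, List.length_append,
          ih (fun c hc => hbs c (List.mem_cons_of_mem _ hc)),
          (hB b (hbs b List.mem_cons_self)).1, List.length_cons]
        ring
    rw [List.length_append, List.length_append, List.length_replicate, hflen φ hφB, hflen ψ hψB,
      hφK, hψK, hnKr]
  · intro s hs'
    rcases List.mem_append.1 hs' with hs' | hs'
    · rw [(List.mem_replicate.1 hs').2]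
      exact hS0
    · rcases List.mem_append.1 hs' with hs' | hs'
      · obtain ⟨b, hb, hsb⟩ := List.mem_flatten.1 hs'
        exact (hB' b (hφB b hb)).2 s hsb
      · obtain ⟨b, hb, hsb⟩ := List.mem_flatten.1 hs'
        exact (hB' b (hψB b hb)).2 s hsb
  · intro c hc
    have hΛr : Λ ^ r ≤ Λ ^ (2 * m) := pow_le_pow_right₀ (by linarith) hr.le
    have hL0 : 0 < Λ ^ (2 * m) := by positivity
    refine det (Th := Th) hBD hN hK1' hm1 hφK hψK hφB hψB hth0 hρ0 ?_ ?_ hρ20 ?_ ?_ ?_ ?_ ?_ ?_ ?_ c hc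
    · rw [hρ]
      exact div_le_self hr0.le hTh1
    · rw [hρ]
      exact (mul_div_cancel₀ r₀ hTh0.ne').le
    · rw [hρ2, div_mul_eq_mul_div, div_le_iff₀ hL0]
      gcongr
    · rw [hρ2, hρ, hth]
      rw [le_div_iff₀ hL0, le_div_iff₀ hTh0]
      have h1 : Th⁻¹ * Th = 1 := inv_mul_cancel₀ hTh0.ne'
      have h2 : 12 * (Th⁻¹ ^ 2 * r₀) * Λ ^ (2 * m) * Th = (12 * Λ ^ (2 * m)) * (Th⁻¹ * r₀) * (Th⁻¹ * Th) := by
        ring
      rw [h2, h1, mul_one]
      calc 12 * Λ ^ (2 * m) * (Th⁻¹ * r₀) ≤ Th * (Th⁻¹ * r₀) := by gcongr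
        _ = r₀ * (Th⁻¹ * Th) := by ring
        _ = r₀ := by rw [h1, mul_one]
    · intro ν hν j hj
      have h1 : (fun ψ : List (List ℂ) => It T 0 r (rb T (r + K * m + j * m) (ψ.drop j) ν)) ∈
          X₁ ∪ X₂ ∪ X₃ := by
        apply Finset.mem_union_left
        apply Finset.mem_union_left
        exact Finset.mem_image.2 ⟨(ν, j), Finset.mem_product.2 ⟨hν, Finset.mem_range.2 (by
          show j < K + 1; omega)⟩, rfl⟩
      exact hgX _ h1
    · intro ν hν j hj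
      have h1 : (fun φ : List (List ℂ) => rb T (r + j * m) (φ.drop j) ν) ∈ Y₁ ∪ Y₂ := by
        apply Finset.mem_union_left
        exact Finset.mem_image.2 ⟨(ν, j), Finset.mem_product.2 ⟨hν, Finset.mem_range.2 (by
          show j < K + 1; omega)⟩, rfl⟩
      exact hgY _ h1
    · intro t ht w' hw'
      have h1 : (fun _ : List (List ℂ) => It T t (r - t) w') ∈ X₁ ∪ X₂ ∪ X₃ := by
        apply Finset.mem_union_left
        apply Finset.mem_union_right
        exact Finset.mem_biUnion.2 ⟨t, Finset.mem_range.2 ht,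
          Finset.mem_image.2 ⟨w', hCrm t w' hw', rfl⟩⟩
      exact hgX _ h1
    · intro t ht w' hw'
      have h1 : (fun φ : List (List ℂ) => run T (r + t) (φ.flatten.drop t) w') ∈ Y₁ ∪ Y₂ := by
        apply Finset.mem_union_right
        exact Finset.mem_biUnion.2 ⟨t, Finset.mem_range.2 ht,
          Finset.mem_image.2 ⟨w', hCrm _ w' hw', rfl⟩⟩
      exact hgY _ h1
    · intro t ht w' hw'
      have h1 : (fun ψ : List (List ℂ) => It T 0 r (run T (r + K * m + t) (ψ.flatten.drop t) w')) ∈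
          X₁ ∪ X₂ ∪ X₃ := by
        apply Finset.mem_union_right
        exact Finset.mem_biUnion.2 ⟨t, Finset.mem_range.2 ht,
          Finset.mem_image.2 ⟨w', hCrm _ w' hw', rfl⟩⟩
      exact hgX _ h1

/-- difference of powers -/
theorem pow_lip {M : ℝ} (hM : 1 ≤ M) {z w : ℂ} (hz : ‖z‖ ≤ M) (hw : ‖w‖ ≤ M) (j : ℕ) :
    ‖z ^ j - w ^ j‖ ≤ j * M ^ j * ‖z - w‖ := by
  induction j with
  | zero => simp
  | succ j ih =>
    have h1 : z ^ (j + 1) - w ^ (j + 1) = z ^ j * (z - w) + (z ^ j - w ^ j) * w := by ring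
    have h2 : ‖z ^ j‖ ≤ M ^ j := by
      rw [norm_pow]
      exact pow_le_pow_left₀ (norm_nonneg _) hz j
    have h3 : (0 : ℝ) ≤ M ^ j := by positivity
    rw [h1]
    calc ‖z ^ j * (z - w) + (z ^ j - w ^ j) * w‖ ≤ ‖z ^ j‖ * ‖z - w‖ + ‖z ^ j - w ^ j‖ * ‖w‖ := by
          refine (norm_add_le _ _).trans ?_
          rw [norm_mul, norm_mul]
      _ ≤ M ^ j * ‖z - w‖ + (j * M ^ j * ‖z - w‖) * M := by gcongr
      _ ≤ M ^ (j + 1) * ‖z - w‖ + (j * M ^ j * ‖z - w‖) * M := by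
          gcongr
          omega
      _ = ((j + 1 : ℕ) : ℝ) * M ^ (j + 1) * ‖z - w‖ := by push_cast; ring

/-- uniform data for polynomials of bounded degrees with bounded coefficients -/
theorem dat_of_bounded (d : ℕ) {A ε : ℝ} (hA : 1 ≤ A) (hε : 0 < ε) (hε1 : ε ≤ 1) :
    ∃ R Λ : ℝ, 1 ≤ R ∧ 2 ≤ Λ ∧ ∀ T : ℕ → ℂ[X],
      (∀ i, 2 ≤ (T i).natDegree ∧ (T i).natDegree ≤ d ∧ (∀ j, ‖(T i).coeff j‖ ≤ A) ∧
        1 / A ≤ ‖(T i).leadingCoeff‖) → Dat T ε R Λ := by
  set R : ℝ := A * (A * d + 3) with hR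
  have hR1 : 1 ≤ R := by
    rw [hR]
    have : 0 ≤ A * d := by positivity
    nlinarith
  set Λ : ℝ := 2 + ∑ j ∈ Finset.range (d + 1), A * (j * (R + 3) ^ j) with hΛ
  have hΛ2 : 2 ≤ Λ := by
    rw [hΛ]
    have : 0 ≤ ∑ j ∈ Finset.range (d + 1), A * (j * (R + 3) ^ j) :=
      Finset.sum_nonneg fun j _ => by positivity
    linarith
  refine ⟨R, Λ, hR1, hΛ2, fun T hT => ⟨?_, ?_, hR1, hΛ2, hε, hε1⟩⟩
  · intro i z s hz hs
    obtain ⟨h1, h2, h3, h4⟩ := hT i
    set k := (T i).natDegree with hk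
    have hz1 : 1 ≤ ‖z‖ := hR1.trans hz
    have h5 : (T i).eval z = ∑ j ∈ Finset.range k, (T i).coeff j * z ^ j +
        (T i).leadingCoeff * z ^ k := by
      rw [eval_eq_sum_range, Finset.sum_range_succ]
      rfl
    have h6 : ‖∑ j ∈ Finset.range k, (T i).coeff j * z ^ j‖ ≤ d * (A * ‖z‖ ^ (k - 1)) := by
      refine (norm_sum_le _ _).trans ?_
      have h7 : ∀ j ∈ Finset.range k, ‖(T i).coeff j * z ^ j‖ ≤ A * ‖z‖ ^ (k - 1) := by
        intro j hj
        rw [norm_mul, norm_pow]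
        have := Finset.mem_range.1 hj
        gcongr
        · exact h3 j
        · omega
      refine (Finset.sum_le_card_nsmul _ _ _ h7).trans ?_
      rw [Finset.card_range, nsmul_eq_mul]
      gcongr
    have h8 : ‖z‖ ^ k = ‖z‖ ^ (k - 1) * ‖z‖ := by
      rw [← pow_succ]
      congr 1
      omega
    have h9 : ‖(T i).leadingCoeff * z ^ k‖ ≥ 1 / A * (‖z‖ ^ (k - 1) * ‖z‖) := by
      rw [norm_mul, norm_pow, h8]
      gcongr
    have h10 : ‖(T i).eval z + s‖ ≥ ‖(T i).leadingCoeff * z ^ k‖ -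
        ‖∑ j ∈ Finset.range k, (T i).coeff j * z ^ j‖ - ‖s‖ := by
      rw [h5]
      have e1 := norm_sub_norm_le ((T i).leadingCoeff * z ^ k)
        (-(∑ j ∈ Finset.range k, (T i).coeff j * z ^ j + s))
      rw [norm_neg, sub_neg_eq_add] at e1
      have e2 := norm_add_le (∑ j ∈ Finset.range k, (T i).coeff j * z ^ j) s
      have e3 : (T i).leadingCoeff * z ^ k + (∑ j ∈ Finset.range k, (T i).coeff j * z ^ j + s) =
          ∑ j ∈ Finset.range k, (T i).coeff j * z ^ j + (T i).leadingCoeff * z ^ k + s := by ring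
      rw [e3] at e1
      linarith
    have h11 : ‖z‖ ≤ ‖z‖ ^ (k - 1) := by
      calc ‖z‖ = ‖z‖ ^ 1 := (pow_one _).symm
        _ ≤ ‖z‖ ^ (k - 1) := pow_le_pow_right₀ hz1 (by omega)
    have h12 : A * d + 3 ≤ 1 / A * ‖z‖ := by
      rw [one_div, ← div_eq_inv_mul, le_div_iff₀ (by linarith)]
      rw [hR] at hz
      linarith
    have h13 : 0 < ‖z‖ ^ (k - 1) := by positivity
    have h14 : 1 / A * (‖z‖ ^ (k - 1) * ‖z‖) ≥ (A * d + 3) * ‖z‖ ^ (k - 1) := by
      have : 1 / A * (‖z‖ ^ (k - 1) * ‖z‖) = (1 / A * ‖z‖) * ‖z‖ ^ (k - 1) := by ring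
      rw [this]
      exact mul_le_mul_of_nonneg_right h12 h13.le
    have h15 : (A * d + 3) * ‖z‖ ^ (k - 1) = d * (A * ‖z‖ ^ (k - 1)) + 3 * ‖z‖ ^ (k - 1) := by ring
    linarith
  · intro i z w hz hw
    obtain ⟨h1, h2, h3, h4⟩ := hT i
    have h5 : (T i).eval z - (T i).eval w =
        ∑ j ∈ Finset.range (d + 1), (T i).coeff j * (z ^ j - w ^ j) := by
      rw [eval_eq_sum_range' (n := d + 1) (by omega), eval_eq_sum_range' (n := d + 1) (by omega),
        ← Finset.sum_sub_distrib]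
      apply Finset.sum_congr rfl
      intro j _
      ring
    rw [h5]
    refine (norm_sum_le _ _).trans ?_
    have h6 : ∀ j ∈ Finset.range (d + 1), ‖(T i).coeff j * (z ^ j - w ^ j)‖ ≤
        A * (j * (R + 3) ^ j) * ‖z - w‖ := by
      intro j _
      rw [norm_mul, mul_assoc]
      have := pow_lip (by linarith : 1 ≤ R + 3) hz hw j
      gcongr
      exact h3 j
    refine (Finset.sum_le_sum h6).trans ?_
    rw [← Finset.sum_mul]
    gcongr
    rw [hΛ]
    linarith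

theorem pertL_ofFn (T : ℕ → ℂ[X]) (n i : ℕ) (s : Fin n → ℂ) :
    pertL T i (List.ofFn s) = List.ofFn fun k : Fin n => T (i + k) + C (s k) := by
  induction n generalizing i with
  | zero => simp [pertL]
  | succ n ih =>
    rw [List.ofFn_succ, List.ofFn_succ, pertL, ih]
    simp only [Fin.val_zero, add_zero, Fin.val_succ]
    congr 2
    funext k
    congr 2
    ring

end Pool.Agent.Y334.NA
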